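import Mathlib
import Pool.Agent.helper57.Fc.Dfn

set_option autoImplicit false

/-!
# Topological notions inside a structure `(M, E)`
-/

namespace Pool.Agent.helper57.RC

open Pool.Agent.helper57.Fc Pool.Agent.helper57.Fc.Sem

variable {M : Type} (E : M → M → Prop)

/-- `a ⊆ b`. -/
def Sub (a b : M) : Prop := ∀ t, E t a → E t b

/-- `w = ω`: the least (nonzero) limit ordinal. -/
def Omega (w : M) : Prop := Ord E w ∧ Lim E w ∧ ∀ x, E x w → ¬ Lim E x

/-- `T` is a topology on `X` (the set of all open sets): it consists of subsets of `X`, contains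
`X`, and is closed under binary intersections and arbitrary unions. -/
def Top (X T : M) : Prop :=
  (∀ u, E u T → Sub E u X) ∧ E X T ∧
  (∀ u v w, E u T → E v T → (∀ t, E t w ↔ E t u ∧ E t v) → E w T) ∧
  (∀ A w, Sub E A T → (∀ t, E t w ↔ ∃ u, E u A ∧ E t u) → E w T)

/-- `(R, L)` is (a copy of) the real line: `L` is the set of all pairs `(a, b)` with `a < b`, for a
strict linear order `<` on `R` which is nonempty, has no end points, has a countable dense subset,
and is Dedekind complete. -/
def RealLine (R L : M) : Prop :=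
  (∀ a b, App E L a b → E a R ∧ E b R) ∧
  (∀ a, ¬ App E L a a) ∧
  (∀ a b c, App E L a b → App E L b c → App E L a c) ∧
  (∀ a b, E a R → E b R → App E L a b ∨ a = b ∨ App E L b a) ∧
  (∃ a, E a R) ∧
  (∀ a, E a R → (∃ b, App E L b a) ∧ ∃ b, App E L a b) ∧
  (∃ w g, Omega E w ∧ Fun E g w R ∧
    ∀ a b, App E L a b → ∃ n c, App E g n c ∧ App E L a c ∧ App E L c b) ∧
  (∀ A, Sub E A R → (∃ a, E a A) → (∃ b, E b R ∧ ∀ a, E a A → ¬ App E L b a) →
    ∃ s, E s R ∧ (∀ a, E a A → ¬ App E L s a) ∧
      ∀ b, E b R → (∀ a, E a A → ¬ App E L b a) → ¬ App E L b s)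

/-- `f` is a continuous function from the space `(X, T)` to the real line `(R, L)`: the preimage of
each open interval is open. -/
def Cont (X T R L f : M) : Prop :=
  Fun E f X R ∧ ∀ a b, E a R → E b R →
    ∃ u, E u T ∧ ∀ x, E x u ↔ E x X ∧ ∃ y, App E f x y ∧ App E L a y ∧ App E L y b

/-- `Z` is a zero set of `(X, T)`: the preimage of the point `o` of the real line under a
continuous function. -/
def ZeroSet (X T R L o Z : M) : Prop :=
  ∃ f, Cont E X T R L f ∧ ∀ x, E x Z ↔ E x X ∧ App E f x o

/-- `F` is a z-filter: a nonempty family of nonempty zero sets, closed under binary intersections,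
and containing each zero set which includes a member of `F`. -/
def ZFilter (X T R L o F : M) : Prop :=
  (∃ Z, E Z F) ∧
  (∀ Z, E Z F → ZeroSet E X T R L o Z ∧ ∃ x, E x Z) ∧
  (∀ Z Z' V, E Z F → E Z' F → (∀ t, E t V ↔ E t Z ∧ E t Z') → E V F) ∧
  (∀ Z Z', E Z F → ZeroSet E X T R L o Z' → Sub E Z Z' → E Z' F)

/-- `F` is a z-ultrafilter: a maximal z-filter. -/
def ZUltrafilter (X T R L o F : M) : Prop :=
  ZFilter E X T R L o F ∧ ∀ F', ZFilter E X T R L o F' → Sub E F F' → Sub E F' F

/-- The countable intersection property: for each function `g` from `ω` to `F`, the intersection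
of all sets `g(n)` is not empty. -/
def CIP (F : M) : Prop :=
  ∀ w g, Omega E w → Fun E g w F → ∃ x, ∀ n Z, App E g n Z → E x Z

/-- `F` is fixed: the intersection of all members of `F` is not empty. -/
def Fixed (F : M) : Prop := ∃ x, ∀ Z, E Z F → E x Z

/-- `(X, T)` is a Tychonoff space: points are closed, and for each open set `u`, each point `x` of
`u` and all real numbers `a`, `b` there is a continuous real function with value `a` at `x`, and
with value `b` outside of `u`. -/
def Tychonoff (X T R L : M) : Prop :=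
  Top E X T ∧
  (∀ x, E x X → ∃ u, E u T ∧ ∀ y, E y u ↔ E y X ∧ y ≠ x) ∧
  ∀ u x a b, E u T → E x u → E a R → E b R →
    ∃ f, Cont E X T R L f ∧ App E f x a ∧ ∀ y, E y X → ¬ E y u → App E f y b

/-- The projections from the set `P` (a set of functions from `J` to `R`) with the topology `T` to
the real line are continuous. -/
def ProjCont (J R L P T : M) : Prop :=
  ∀ j a b, E j J → E a R → E b R →
    ∃ u, E u T ∧ ∀ g, E g u ↔ E g P ∧ ∃ y, App E g j y ∧ App E L a y ∧ App E L y b

/-- `P` is the set of all functions from `J` to `R`, and `T` is the product topology on `P`, the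
smallest topology for which all projections are continuous. -/
def Product (J R L P T : M) : Prop :=
  (∀ g, E g P ↔ Fun E g J R) ∧ Top E P T ∧ ProjCont E J R L P T ∧
  ∀ T', Top E P T' → ProjCont E J R L P T' → Sub E T T'

/-- `(X, T)` is realcompact: it is homeomorphic, by a function `h`, to a closed subspace `C` of a
product `P` of copies of the real line. -/
def RealCompact (X T R L : M) : Prop :=
  ∃ J P TP C h, Product E J R L P TP ∧
    Sub E C P ∧ (∃ u, E u TP ∧ ∀ g, E g u ↔ E g P ∧ ¬ E g C) ∧
    Fun E h X C ∧ Inj E h ∧ Surj E h X C ∧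
    (∀ v, E v TP → ∃ u, E u T ∧ ∀ x, E x u ↔ ∃ g, App E h x g ∧ E g v) ∧
    (∀ u, E u T → ∃ v, E v TP ∧ ∀ x g, App E h x g → (E x u ↔ E g v))

section Dfn

variable {E} {n : ℕ}

theorem Dfn.sub {a b : (Fin n → M) → M} (ha : Tm a) (hb : Tm b) :
    Dfn E (fun v => Sub E (a v) (b v)) := by
  unfold Sub
  (repeat' (first | exact Tm.var _ | exact Tm.const _ | exact Tm.ren (by assumption) _ | assumption | apply Dfn.all | apply Dfn.ex | apply Dfn.and | apply Dfn.or | apply Dfn.iff | apply Dfn.not | apply Dfn.imp | apply Dfn.mem | apply Dfn.eq))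

theorem Dfn.cont {X T R L f : (Fin n → M) → M} (hX : Tm X) (hT : Tm T) (hR : Tm R) (hL : Tm L)
    (hf : Tm f) : Dfn E (fun v => Cont E (X v) (T v) (R v) (L v) (f v)) := by
  unfold Cont Fun App OPair UPair
  (repeat' (first | exact Tm.var _ | exact Tm.const _ | exact Tm.ren (by assumption) _ | assumption | apply Dfn.all | apply Dfn.ex | apply Dfn.and | apply Dfn.or | apply Dfn.iff | apply Dfn.not | apply Dfn.imp | apply Dfn.mem | apply Dfn.eq))

theorem Dfn.zeroSet {X T R L o Z : (Fin n → M) → M} (hX : Tm X) (hT : Tm T) (hR : Tm R)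
    (hL : Tm L) (ho : Tm o) (hZ : Tm Z) :
    Dfn E (fun v => ZeroSet E (X v) (T v) (R v) (L v) (o v) (Z v)) := by
  unfold ZeroSet Cont Fun App OPair UPair
  (repeat' (first | exact Tm.var _ | exact Tm.const _ | exact Tm.ren (by assumption) _ | assumption | apply Dfn.all | apply Dfn.ex | apply Dfn.and | apply Dfn.or | apply Dfn.iff | apply Dfn.not | apply Dfn.imp | apply Dfn.mem | apply Dfn.eq))

end Dfn

end Pool.Agent.helper57.RC
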