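import Mathlib
import Pool.Agent.helper57.RC.SemTop

set_option autoImplicit false

/-!
# A model with a set of reals and a set of generic points; the real line of the model
-/

namespace Pool.Agent.helper57.RC

open Pool.Agent.helper57.Fc Pool.Agent.helper57.Fc.Sem

/-- An enumeration of the pairs with first coordinate at most `N`. -/
def enum (N k : ℕ) : ℕ × ℕ := ((Nat.unpair k).1 % (N + 1), (Nat.unpair k).2)

theorem enum_le (N k : ℕ) : (enum N k).1 ≤ N :=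
  Nat.lt_succ_iff.1 (Nat.mod_lt _ (Nat.succ_pos N))

theorem exists_enum_eq {N : ℕ} {a : ℕ × ℕ} (ha : a.1 ≤ N) : ∃ k, enum N k = a := by
  refine ⟨Nat.pair a.1 a.2, ?_⟩
  unfold enum
  rw [Nat.unpair_pair, Nat.mod_eq_of_lt (Nat.lt_succ_of_le ha)]

/-- An enumeration of the rational numbers. -/
noncomputable def ratE : ℕ ≃ ℚ := (Denumerable.eqv ℚ).symm

/-- The properties of the symmetric Cohen model which are used. -/
structure CModel where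
  M : Type
  E : M → M → Prop
  zf : IsZF E
  w : M
  nv : ℕ → M
  nv_inj : Function.Injective nv
  w_mem : ∀ t, E t w ↔ ∃ n, t = nv n
  nv_mem : ∀ n t, E t (nv n) ↔ ∃ i < n, t = nv i
  lq : M
  lq_app : ∀ u v, App E lq u v ↔ ∃ i j, u = nv i ∧ v = nv j ∧
    ratE i < ratE j
  nq : M
  nq_app : ∀ u v, App E nq u v ↔ ∃ i j, u = nv i ∧ v = nv j ∧
    ratE j = - ratE i
  iq : M
  iq_app : ∀ u v, App E iq u v ↔ ∃ i j : ℕ, u = nv i ∧ v = nv j ∧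
    ratE j = 1 / ((i : ℚ) + 1)
  d : ℕ × ℕ → M
  d_inj : Function.Injective d
  pt : Finset (ℕ × ℕ) → M
  pt_mem : ∀ s t, E t (pt s) ↔ ∃ a ∈ s, t = d a
  X : M
  X_mem : ∀ t, E t X ↔ ∃ s : Finset (ℕ × ℕ), s.Nonempty ∧ t = pt s
  U : Finset (ℕ × ℕ) → Finset (ℕ × ℕ) → M
  U_mem : ∀ s t x, E x (U s t) ↔ ∃ u : Finset (ℕ × ℕ), u.Nonempty ∧ s ⊆ u ∧ Disjoint u t ∧ x = pt u
  B : M
  B_mem : ∀ x, E x B ↔ ∃ s t, x = U s t
  NB : M
  NB_mem : ∀ x, E x NB ↔ ∃ t, x = U ∅ t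
  Dn : ℕ → M
  Dn_mem : ∀ N t, E t (Dn N) ↔ ∃ a : ℕ × ℕ, a.1 ≤ N ∧ t = d a
  e : ℕ → M
  e_app : ∀ N u v, App E (e N) u v ↔ ∃ k, u = nv k ∧ v = d (enum N k)
  DS : M
  DS_app : ∀ u v, App E DS u v ↔ ∃ N, u = nv N ∧ v = Dn N
  sym : ∀ f, ∃ N, ∀ (χ : Fm 3) (s t : Finset (ℕ × ℕ)) (a : ℕ × ℕ) (n : ℕ), N ≤ a.1 → a ∉ s →
    s.Nonempty → Disjoint s t →
    (∀ u, s ⊆ u → Disjoint u t → Sat E χ ![f, pt u, nv n]) → Sat E χ ![f, pt (insert a s), nv n]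

namespace CModel

variable (C : CModel)

/-- The name of a rational number. -/
noncomputable def qv (r : ℚ) : C.M := C.nv (ratE.symm r)

theorem qv_inj {r s : ℚ} : C.qv r = C.qv s ↔ r = s := by
  unfold qv
  rw [C.nv_inj.eq_iff]
  exact ratE.symm.injective.eq_iff

theorem w_mem' (t : C.M) : C.E t C.w ↔ ∃ r, t = C.qv r := by
  rw [C.w_mem]
  constructor
  · rintro ⟨n, rfl⟩
    exact ⟨ratE n, by unfold qv; rw [Equiv.symm_apply_apply]⟩
  · rintro ⟨r, rfl⟩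
    exact ⟨_, rfl⟩

theorem qv_mem_w (r : ℚ) : C.E (C.qv r) C.w := (C.w_mem' _).2 ⟨r, rfl⟩

theorem lq_iff {r s : ℚ} : App C.E C.lq (C.qv r) (C.qv s) ↔ r < s := by
  rw [C.lq_app]
  constructor
  · rintro ⟨i, j, h1, h2, h3⟩
    unfold qv at h1 h2
    rw [C.nv_inj.eq_iff] at h1 h2
    subst h1 h2
    rw [Equiv.apply_symm_apply, Equiv.apply_symm_apply] at h3
    exact h3
  · intro h
    exact ⟨_, _, rfl, rfl, by rw [Equiv.apply_symm_apply, Equiv.apply_symm_apply]; exact h⟩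

theorem lq_dom {u v : C.M} (h : App C.E C.lq u v) : (∃ r, u = C.qv r) ∧ ∃ s, v = C.qv s := by
  obtain ⟨i, j, h1, h2, -⟩ := (C.lq_app u v).1 h
  exact ⟨(C.w_mem' _).1 ((C.w_mem _).2 ⟨i, h1⟩), (C.w_mem' _).1 ((C.w_mem _).2 ⟨j, h2⟩)⟩

theorem nq_iff {r s : ℚ} : App C.E C.nq (C.qv r) (C.qv s) ↔ s = -r := by
  rw [C.nq_app]
  constructor
  · rintro ⟨i, j, h1, h2, h3⟩
    unfold qv at h1 h2
    rw [C.nv_inj.eq_iff] at h1 h2
    subst h1 h2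
    rw [Equiv.apply_symm_apply, Equiv.apply_symm_apply] at h3
    exact h3
  · intro h
    exact ⟨_, _, rfl, rfl, by rw [Equiv.apply_symm_apply, Equiv.apply_symm_apply]; exact h⟩

theorem iq_iff {k : ℕ} {s : ℚ} : App C.E C.iq (C.nv k) (C.qv s) ↔ s = 1 / ((k : ℚ) + 1) := by
  rw [C.iq_app]
  constructor
  · rintro ⟨i, j, h1, h2, h3⟩
    unfold qv at h2
    rw [C.nv_inj.eq_iff] at h1 h2
    subst h1 h2
    rw [Equiv.apply_symm_apply] at h3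
    exact h3
  · intro h
    exact ⟨_, _, rfl, rfl, by rw [Equiv.apply_symm_apply]; exact h⟩

/-- The set of rational numbers in a set. -/
def cs (A : C.M) : Set ℚ := {r | C.E (C.qv r) A}

theorem mem_cs {A : C.M} {r : ℚ} : r ∈ C.cs A ↔ C.E (C.qv r) A := Iff.rfl

theorem cs_ext {A A' : C.M} (hA : Sub C.E A C.w) (hA' : Sub C.E A' C.w)
    (h : ∀ r, r ∈ C.cs A ↔ r ∈ C.cs A') : A = A' := by
  refine C.zf.ext _ _ fun t => ⟨fun ht => ?_, fun ht => ?_⟩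
  · obtain ⟨r, rfl⟩ := (C.w_mem' _).1 (hA t ht)
    exact (h r).1 ht
  · obtain ⟨r, rfl⟩ := (C.w_mem' _).1 (hA' t ht)
    exact (h r).2 ht

/-- `A` is a Dedekind cut (a lower set without greatest element). -/
def IsCut (A : C.M) : Prop := Sub C.E A C.w ∧ (∃ t, C.E t A) ∧ (∃ t, C.E t C.w ∧ ¬ C.E t A) ∧
  (∀ s t, C.E t A → App C.E C.lq s t → C.E s A) ∧ ∀ t, C.E t A → ∃ s, C.E s A ∧ App C.E C.lq t s

theorem exists_R : ∃ R, ∀ A, C.E A R ↔ C.IsCut A := by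
  obtain ⟨p, hp⟩ := C.zf.power C.w
  obtain ⟨R, hR⟩ := C.zf.sp (P := C.IsCut) (by
    unfold IsCut Sub App OPair UPair
    (repeat' (first | exact Tm.var _ | exact Tm.const _ | exact Tm.ren (by assumption) _ | assumption | apply Dfn.all | apply Dfn.ex | apply Dfn.and | apply Dfn.or | apply Dfn.iff | apply Dfn.not | apply Dfn.imp | apply Dfn.mem | apply Dfn.eq))) p
  refine ⟨R, fun A => ?_⟩
  rw [hR, hp]
  exact ⟨fun h => h.2, fun h => ⟨h.1, h⟩⟩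

/-- The set of real numbers. -/
noncomputable def R : C.M := C.exists_R.choose

theorem R_mem {A : C.M} : C.E A C.R ↔ C.IsCut A := C.exists_R.choose_spec A

/-- The real number given by a cut. -/
noncomputable def val (A : C.M) : ℝ := sSup ((fun r : ℚ => (r : ℝ)) '' C.cs A)

theorem mem_cs_iff {A : C.M} (hA : C.E A C.R) {r : ℚ} : C.E (C.qv r) A ↔ (r : ℝ) < C.val A := by
  obtain ⟨h1, ⟨t, ht⟩, ⟨u, hu, hu'⟩, h4, h5⟩ := C.R_mem.1 hA
  obtain ⟨r₀, rfl⟩ := (C.w_mem' _).1 (h1 t ht)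
  obtain ⟨r₁, rfl⟩ := (C.w_mem' _).1 hu
  have hlow : ∀ r s : ℚ, C.E (C.qv s) A → r < s → C.E (C.qv r) A :=
    fun r s hs hrs => h4 _ _ hs (C.lq_iff.2 hrs)
  have hbdd : BddAbove ((fun r : ℚ => (r : ℝ)) '' C.cs A) := by
    refine ⟨r₁, ?_⟩
    rintro _ ⟨s, hs, rfl⟩
    by_contra hcon
    push Not at hcon
    exact hu' (hlow r₁ s hs (by exact_mod_cast hcon))
  constructor
  · intro h
    obtain ⟨s, hs, hrs⟩ := h5 _ h
    obtain ⟨s, rfl⟩ := (C.w_mem' _).1 (h1 s hs)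
    have h6 : (r : ℝ) < s := by exact_mod_cast C.lq_iff.1 hrs
    exact h6.trans_le (le_csSup hbdd ⟨s, hs, rfl⟩)
  · intro h
    obtain ⟨_, ⟨s, hs, rfl⟩, hrs⟩ := exists_lt_of_lt_csSup
      (s := (fun r : ℚ => (r : ℝ)) '' C.cs A) ⟨(r₀ : ℝ), ⟨r₀, ht, rfl⟩⟩ h
    have hrs' : (r : ℝ) < s := hrs
    exact hlow r s hs (by exact_mod_cast hrs')

theorem sub_of_mem_R {A : C.M} (hA : C.E A C.R) : Sub C.E A C.w := (C.R_mem.1 hA).1

/-- A set of rationals which is the set of all rationals below a real number is a real number of the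
model. -/
theorem mk_real {A : C.M} (hA : Sub C.E A C.w) {y : ℝ}
    (h : ∀ r : ℚ, C.E (C.qv r) A ↔ (r : ℝ) < y) : C.E A C.R ∧ C.val A = y := by
  have h1 : C.E A C.R := by
    rw [C.R_mem]
    obtain ⟨r₀, hr₀⟩ := exists_rat_lt y
    obtain ⟨r₁, hr₁⟩ := exists_rat_gt y
    refine ⟨hA, ⟨_, (h r₀).2 hr₀⟩, ⟨C.qv r₁, C.qv_mem_w r₁, fun h' => ?_⟩, fun s t ht hst => ?_,
      fun t ht => ?_⟩
    · exact absurd ((h r₁).1 h') (not_lt.2 hr₁.le)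
    · obtain ⟨⟨s, rfl⟩, ⟨t, rfl⟩⟩ := C.lq_dom hst
      have h2 := C.lq_iff.1 hst
      rw [h] at ht ⊢
      have h3 : (s : ℝ) < t := by exact_mod_cast h2
      exact h3.trans ht
    · obtain ⟨t, rfl⟩ := (C.w_mem' _).1 (hA t ht)
      obtain ⟨s, hs1, hs2⟩ := exists_rat_btwn ((h t).1 ht)
      exact ⟨C.qv s, (h s).2 hs2, C.lq_iff.2 (by exact_mod_cast hs1)⟩
  refine ⟨h1, ?_⟩
  rcases lt_trichotomy (C.val A) y with h2 | h2 | h2
  · obtain ⟨s, hs1, hs2⟩ := exists_rat_btwn h2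
    exact absurd ((C.mem_cs_iff h1).1 ((h s).2 hs2)) (not_lt.2 hs1.le)
  · exact h2
  · obtain ⟨s, hs1, hs2⟩ := exists_rat_btwn h2
    exact absurd ((h s).1 ((C.mem_cs_iff h1).2 hs2)) (not_lt.2 hs1.le)

theorem val_inj {A A' : C.M} (hA : C.E A C.R) (hA' : C.E A' C.R) (h : C.val A = C.val A') :
    A = A' :=
  C.cs_ext (C.sub_of_mem_R hA) (C.sub_of_mem_R hA') fun r => by
    rw [mem_cs, mem_cs, C.mem_cs_iff hA, C.mem_cs_iff hA', h]

theorem exists_L : ∃ L, (∀ z, C.E z L → ∃ x, C.E x C.R ∧ ∃ y, C.E y C.R ∧ OPair C.E z x y) ∧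
    ∀ x y, App C.E L x y ↔ C.E x C.R ∧ C.E y C.R ∧ ∃ r, C.E r y ∧ ¬ C.E r x :=
  C.zf.exists_rel' C.R C.R (R := fun x y => ∃ r, C.E r y ∧ ¬ C.E r x) (by (repeat' (first | exact Tm.var _ | exact Tm.const _ | exact Tm.ren (by assumption) _ | assumption | apply Dfn.all | apply Dfn.ex | apply Dfn.and | apply Dfn.or | apply Dfn.iff | apply Dfn.not | apply Dfn.imp | apply Dfn.mem | apply Dfn.eq)))

/-- The order of the real line. -/
noncomputable def L : C.M := C.exists_L.choose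

theorem L_app {x y : C.M} : App C.E C.L x y ↔
    C.E x C.R ∧ C.E y C.R ∧ ∃ r, C.E r y ∧ ¬ C.E r x := C.exists_L.choose_spec.2 x y

theorem L_iff {x y : C.M} (hx : C.E x C.R) (hy : C.E y C.R) :
    App C.E C.L x y ↔ C.val x < C.val y := by
  rw [L_app]
  constructor
  · rintro ⟨-, -, r, h1, h2⟩
    obtain ⟨r, rfl⟩ := (C.w_mem' _).1 (C.sub_of_mem_R hy r h1)
    rw [C.mem_cs_iff hy] at h1
    rw [C.mem_cs_iff hx, not_lt] at h2
    exact h2.trans_lt h1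
  · intro h
    obtain ⟨r, h1, h2⟩ := exists_rat_btwn h
    exact ⟨hx, hy, C.qv r, (C.mem_cs_iff hy).2 h2, fun h' =>
      absurd ((C.mem_cs_iff hx).1 h') (not_lt.2 h1.le)⟩

theorem exists_qc (r : ℚ) : ∃ A, C.E A C.R ∧ C.val A = r := by
  obtain ⟨A, hA⟩ := C.zf.sp (P := fun t => App C.E C.lq t (C.qv r))
    (Dfn.app (Tm.const _) (Tm.var _) (Tm.const _)) C.w
  refine ⟨A, C.mk_real (fun t ht => ((hA t).1 ht).1) fun s => ?_⟩
  rw [hA, C.lq_iff]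
  constructor
  · exact fun h => by exact_mod_cast h.2
  · exact fun h => ⟨C.qv_mem_w s, by exact_mod_cast h⟩

/-- A rational number, as a real number. -/
noncomputable def qc (r : ℚ) : C.M := (C.exists_qc r).choose

theorem qc_mem (r : ℚ) : C.E (C.qc r) C.R := (C.exists_qc r).choose_spec.1

theorem val_qc (r : ℚ) : C.val (C.qc r) = r := (C.exists_qc r).choose_spec.2

theorem w_trans : Trans C.E C.w := by
  intro y hy z hz
  obtain ⟨n, rfl⟩ := (C.w_mem _).1 hy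
  obtain ⟨i, -, rfl⟩ := (C.nv_mem _ _).1 hz
  exact (C.w_mem _).2 ⟨i, rfl⟩

theorem omega_w : Omega C.E C.w := by
  refine ⟨⟨C.w_trans, fun y hy z hz t ht => ?_⟩, ⟨⟨C.nv 0, (C.w_mem _).2 ⟨0, rfl⟩⟩,
    fun t ht => ?_⟩, fun x hx hlim => ?_⟩
  · obtain ⟨n, rfl⟩ := (C.w_mem _).1 hy
    obtain ⟨i, hi, rfl⟩ := (C.nv_mem _ _).1 hz
    obtain ⟨j, hj, rfl⟩ := (C.nv_mem _ _).1 ht
    exact (C.nv_mem _ _).2 ⟨j, hj.trans hi, rfl⟩
  · obtain ⟨n, rfl⟩ := (C.w_mem _).1 ht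
    exact ⟨C.nv (n + 1), (C.w_mem _).2 ⟨_, rfl⟩, (C.nv_mem _ _).2 ⟨n, Nat.lt_succ_self n, rfl⟩⟩
  · obtain ⟨n, rfl⟩ := (C.w_mem _).1 hx
    obtain ⟨t, ht⟩ := hlim.1
    obtain ⟨i, hi, rfl⟩ := (C.nv_mem _ _).1 ht
    obtain ⟨m, rfl⟩ : ∃ m, n = m + 1 := ⟨n - 1, by omega⟩
    obtain ⟨s, hs1, hs2⟩ := hlim.2 (C.nv m) ((C.nv_mem _ _).2 ⟨m, Nat.lt_succ_self m, rfl⟩)
    obtain ⟨j, hj, rfl⟩ := (C.nv_mem _ _).1 hs1
    obtain ⟨k, hk, h⟩ := (C.nv_mem _ _).1 hs2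
    have := C.nv_inj h
    omega

theorem realLine : RealLine C.E C.R C.L := by
  have hdom : ∀ a b, App C.E C.L a b → C.E a C.R ∧ C.E b C.R := fun a b h =>
    ⟨(C.L_app.1 h).1, (C.L_app.1 h).2.1⟩
  refine ⟨hdom, ?_, ?_, ?_, ⟨C.qc 0, C.qc_mem 0⟩, ?_, ?_, ?_⟩
  · intro a h
    obtain ⟨ha, -⟩ := hdom a a h
    exact lt_irrefl _ ((C.L_iff ha ha).1 h)
  · intro a b c h1 h2
    obtain ⟨ha, hb⟩ := hdom _ _ h1
    obtain ⟨-, hc⟩ := hdom _ _ h2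
    rw [C.L_iff ha hb] at h1
    rw [C.L_iff hb hc] at h2
    exact (C.L_iff ha hc).2 (h1.trans h2)
  · intro a b ha hb
    rw [C.L_iff ha hb, C.L_iff hb ha]
    rcases lt_trichotomy (C.val a) (C.val b) with h | h | h
    · exact Or.inl h
    · exact Or.inr (Or.inl (C.val_inj ha hb h))
    · exact Or.inr (Or.inr h)
  · intro a ha
    obtain ⟨r, hr⟩ := exists_rat_lt (C.val a)
    obtain ⟨s, hs⟩ := exists_rat_gt (C.val a)
    refine ⟨⟨C.qc r, (C.L_iff (C.qc_mem r) ha).2 (by rw [C.val_qc]; exact hr)⟩,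
      ⟨C.qc s, (C.L_iff ha (C.qc_mem s)).2 (by rw [C.val_qc]; exact hs)⟩⟩
  · obtain ⟨g, hg, hg'⟩ := C.zf.exists_fun C.w C.R
      (R := fun n A => ∀ t, C.E t A ↔ App C.E C.lq t n) (by
        apply Dfn.all
        apply Dfn.iff
        · (repeat' (first | exact Tm.var _ | exact Tm.const _ | exact Tm.ren (by assumption) _ | assumption | apply Dfn.all | apply Dfn.ex | apply Dfn.and | apply Dfn.or | apply Dfn.iff | apply Dfn.not | apply Dfn.imp | apply Dfn.mem | apply Dfn.eq))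
        · exact Dfn.app (Tm.const _) (Tm.var _) (Tm.var _)) (fun n hn => by
        obtain ⟨r, rfl⟩ := (C.w_mem' _).1 hn
        refine ⟨C.qc r, C.qc_mem r, fun t => ⟨fun ht => ?_, fun ht => ?_⟩⟩
        · obtain ⟨s, rfl⟩ := (C.w_mem' _).1 (C.sub_of_mem_R (C.qc_mem r) t ht)
          rw [C.mem_cs_iff (C.qc_mem r), C.val_qc] at ht
          exact C.lq_iff.2 (by exact_mod_cast ht)
        · obtain ⟨⟨s, rfl⟩, -⟩ := C.lq_dom ht
          rw [C.mem_cs_iff (C.qc_mem r), C.val_qc]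
          exact_mod_cast C.lq_iff.1 ht) (fun n _ y y' _ _ h h' => C.zf.ext _ _ fun t =>
        (h t).trans (h' t).symm)
    refine ⟨C.w, g, C.omega_w, hg, fun a b hab => ?_⟩
    obtain ⟨ha, hb⟩ := hdom a b hab
    obtain ⟨r, h1, h2⟩ := exists_rat_btwn ((C.L_iff ha hb).1 hab)
    refine ⟨C.qv r, C.qc r, (hg' _ _).2 ⟨C.qv_mem_w r, C.qc_mem r, fun t => ⟨fun ht => ?_,
      fun ht => ?_⟩⟩, (C.L_iff ha (C.qc_mem r)).2 (by rw [C.val_qc]; exact h1),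
      (C.L_iff (C.qc_mem r) hb).2 (by rw [C.val_qc]; exact h2)⟩
    · obtain ⟨s, rfl⟩ := (C.w_mem' _).1 (C.sub_of_mem_R (C.qc_mem r) t ht)
      rw [C.mem_cs_iff (C.qc_mem r), C.val_qc] at ht
      exact C.lq_iff.2 (by exact_mod_cast ht)
    · obtain ⟨⟨s, rfl⟩, -⟩ := C.lq_dom ht
      rw [C.mem_cs_iff (C.qc_mem r), C.val_qc]
      exact_mod_cast C.lq_iff.1 ht
  · rintro A hA ⟨a₀, ha₀⟩ ⟨b, hb, hb'⟩
    obtain ⟨s, hs⟩ := C.zf.union A
    have hbound : ∀ a, C.E a A → C.val a ≤ C.val b := fun a ha => by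
      by_contra hcon
      push Not at hcon
      exact hb' a ha ((C.L_iff hb (hA a ha)).2 hcon)
    have hbdd : BddAbove (C.val '' {a | C.E a A}) := ⟨C.val b, by
      rintro _ ⟨a, ha, rfl⟩
      exact hbound a ha⟩
    obtain ⟨hsR, hsv⟩ := C.mk_real (A := s) (y := sSup (C.val '' {a | C.E a A})) (fun t ht => by
      obtain ⟨a, ha, hta⟩ := (hs t).1 ht
      exact C.sub_of_mem_R (hA a ha) t hta) (fun r => by
      rw [hs]
      constructor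
      · rintro ⟨a, ha, hra⟩
        rw [C.mem_cs_iff (hA a ha)] at hra
        exact hra.trans_le (le_csSup hbdd ⟨a, ha, rfl⟩)
      · intro h
        obtain ⟨_, ⟨a, ha, rfl⟩, hra⟩ := exists_lt_of_lt_csSup
          (s := C.val '' {a | C.E a A}) ⟨C.val a₀, ⟨a₀, ha₀, rfl⟩⟩ h
        exact ⟨a, ha, (C.mem_cs_iff (hA a ha)).2 hra⟩)
    refine ⟨s, hsR, fun a ha h => ?_, fun c hc hc' h => ?_⟩
    · rw [C.L_iff hsR (hA a ha), hsv] at h
      exact absurd (le_csSup hbdd ⟨a, ha, rfl⟩) (not_le.2 h)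
    · rw [C.L_iff hc hsR, hsv] at h
      obtain ⟨_, ⟨a, ha, rfl⟩, hra⟩ := exists_lt_of_lt_csSup
          (s := C.val '' {a | C.E a A}) ⟨C.val a₀, ⟨a₀, ha₀, rfl⟩⟩ h
      exact hc' a ha ((C.L_iff hc (hA a ha)).2 hra)

end CModel

end Pool.Agent.helper57.RC
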