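import Mathlib
import Pool.Agent.helper57.RC.Line

set_option autoImplicit false

/-!
# The space of nonempty finite sets of generic points
-/

namespace Pool.Agent.helper57.RC

open Pool.Agent.helper57.Fc Pool.Agent.helper57.Fc.Sem

namespace CModel

variable (C : CModel)

/-- Finite sets of indices of generic points. -/
abbrev FS : Type := Finset (ℕ × ℕ)

theorem d_mem_pt {a : ℕ × ℕ} {s : FS} : C.E (C.d a) (C.pt s) ↔ a ∈ s := by
  rw [C.pt_mem]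
  constructor
  · rintro ⟨b, hb, h⟩
    rw [C.d_inj h]
    exact hb
  · exact fun h => ⟨a, h, rfl⟩

theorem pt_inj {s t : FS} : C.pt s = C.pt t ↔ s = t := by
  constructor
  · intro h
    ext a
    rw [← C.d_mem_pt, h, C.d_mem_pt]
  · rintro rfl
    rfl

theorem pt_mem_X {s : FS} (hs : s.Nonempty) : C.E (C.pt s) C.X := (C.X_mem _).2 ⟨s, hs, rfl⟩

theorem pt_mem_U {s t u : FS} (hu : u.Nonempty) : C.E (C.pt u) (C.U s t) ↔ s ⊆ u ∧ Disjoint u t := by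
  rw [C.U_mem]
  constructor
  · rintro ⟨v, -, h1, h2, h3⟩
    rw [C.pt_inj] at h3
    subst h3
    exact ⟨h1, h2⟩
  · exact fun h => ⟨u, hu, h.1, h.2, rfl⟩

theorem exists_T : ∃ T, ∀ u, C.E u T ↔ Sub C.E u C.X ∧
    ∀ x, C.E x u → ∃ b, C.E b C.B ∧ C.E x b ∧ Sub C.E b u := by
  obtain ⟨p, hp⟩ := C.zf.power C.X
  obtain ⟨T, hT⟩ := C.zf.sp (P := fun u => ∀ x, C.E x u → ∃ b, C.E b C.B ∧ C.E x b ∧ Sub C.E b u)
    (by
      unfold Sub
      (repeat' (first | exact Tm.var _ | exact Tm.const _ | exact Tm.ren (by assumption) _ | assumption | apply Dfn.all | apply Dfn.ex | apply Dfn.and | apply Dfn.or | apply Dfn.iff | apply Dfn.not | apply Dfn.imp | apply Dfn.mem | apply Dfn.eq))) p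
  refine ⟨T, fun u => ?_⟩
  rw [hT, hp]
  exact Iff.rfl

/-- The topology. -/
noncomputable def T : C.M := C.exists_T.choose

theorem T_mem {u : C.M} : C.E u C.T ↔ Sub C.E u C.X ∧
    ∀ x, C.E x u → ∃ b, C.E b C.B ∧ C.E x b ∧ Sub C.E b u := C.exists_T.choose_spec u

/-- The finite set `v` is close to `s`. -/
def Near (s t v : FS) : Prop := s ⊆ v ∧ Disjoint v t

theorem T_iff {u : C.M} : C.E u C.T ↔ Sub C.E u C.X ∧ ∀ s : FS, s.Nonempty → C.E (C.pt s) u →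
    ∃ t, Disjoint s t ∧ ∀ v, Near s t v → C.E (C.pt v) u := by
  rw [T_mem]
  refine and_congr_right fun hu => ⟨fun h s hs hsu => ?_, fun h x hx => ?_⟩
  · obtain ⟨b, hb, h1, h2⟩ := h _ hsu
    obtain ⟨s', t, rfl⟩ := (C.B_mem b).1 hb
    rw [C.pt_mem_U hs] at h1
    refine ⟨t, h1.2, fun v hv => h2 _ ?_⟩
    rw [C.pt_mem_U (hs.mono hv.1)]
    exact ⟨h1.1.trans hv.1, hv.2⟩
  · obtain ⟨s, hs, rfl⟩ := (C.X_mem x).1 (hu x hx)
    obtain ⟨t, h1, h2⟩ := h s hs hx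
    refine ⟨C.U s t, (C.B_mem _).2 ⟨s, t, rfl⟩, (C.pt_mem_U hs).2 ⟨Finset.Subset.refl s, h1⟩,
      fun y hy => ?_⟩
    obtain ⟨v, -, h3, h4, rfl⟩ := (C.U_mem _ _ _).1 hy
    exact h2 v ⟨h3, h4⟩

theorem top_T : Top C.E C.X C.T := by
  refine ⟨fun u hu => (C.T_iff.1 hu).1, ?_, fun u v w hu hv hw => ?_, fun A w hA hw => ?_⟩
  · refine C.T_iff.2 ⟨fun t ht => ht, fun s hs _ => ⟨∅, Finset.disjoint_empty_right s,
      fun v hv => C.pt_mem_X (hs.mono hv.1)⟩⟩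
  · rw [T_iff] at hu hv ⊢
    refine ⟨fun t ht => hu.1 t ((hw t).1 ht).1, fun s hs h => ?_⟩
    obtain ⟨h1, h2⟩ := (hw _).1 h
    obtain ⟨t, ht, ht'⟩ := hu.2 s hs h1
    obtain ⟨r, hr, hr'⟩ := hv.2 s hs h2
    refine ⟨t ∪ r, Finset.disjoint_union_right.2 ⟨ht, hr⟩, fun v hv => ?_⟩
    have h3 := Finset.disjoint_union_right.1 hv.2
    exact (hw _).2 ⟨ht' v ⟨hv.1, h3.1⟩, hr' v ⟨hv.1, h3.2⟩⟩
  · rw [T_iff]
    refine ⟨fun t ht => ?_, fun s hs h => ?_⟩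
    · obtain ⟨u, hu, htu⟩ := (hw t).1 ht
      exact (C.T_iff.1 (hA u hu)).1 t htu
    · obtain ⟨u, hu, hsu⟩ := (hw _).1 h
      obtain ⟨t, ht, ht'⟩ := (C.T_iff.1 (hA u hu)).2 s hs hsu
      exact ⟨t, ht, fun v hv => (hw _).2 ⟨u, hu, ht' v hv⟩⟩

/-! ### Real functions -/

open Classical in
/-- The value of a function, as a real number. -/
noncomputable def fR (f : C.M) (s : FS) : ℝ :=
  if h : ∃ A, C.E A C.R ∧ App C.E f (C.pt s) A then C.val h.choose else 0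

variable {C}

theorem fR_spec {f : C.M} (hf : Fun C.E f C.X C.R) {s : FS} (hs : s.Nonempty) :
    ∃ A, C.E A C.R ∧ App C.E f (C.pt s) A ∧ C.val A = C.fR f s := by
  obtain ⟨A, hA, h⟩ := hf.2.1 _ (C.pt_mem_X hs)
  have hex : ∃ A, C.E A C.R ∧ App C.E f (C.pt s) A := ⟨A, hA, h⟩
  refine ⟨A, hA, h, ?_⟩
  rw [fR, dif_pos hex]
  rw [hf.2.2 _ _ _ h hex.choose_spec.2]

theorem fR_eq {f : C.M} (hf : Fun C.E f C.X C.R) {s : FS} (hs : s.Nonempty) {A : C.M}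
    (h : App C.E f (C.pt s) A) : C.E A C.R ∧ C.fR f s = C.val A := by
  obtain ⟨A', h1, h2, h3⟩ := fR_spec hf hs
  have := hf.2.2 _ _ _ h h2
  subst this
  exact ⟨h1, h3.symm⟩

theorem app_iff {f : C.M} (hf : Fun C.E f C.X C.R) {s : FS} (hs : s.Nonempty) {A : C.M}
    (hA : C.E A C.R) : App C.E f (C.pt s) A ↔ C.fR f s = C.val A := by
  constructor
  · exact fun h => (fR_eq hf hs h).2
  · intro h
    obtain ⟨A', h1, h2, h3⟩ := fR_spec hf hs
    rw [C.val_inj hA h1 (h.symm.trans h3.symm)]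
    exact h2

variable (C) in
/-- Continuity, for a function on nonempty finite sets. -/
def LCont (φ : FS → ℝ) : Prop := ∀ s : FS, s.Nonempty → ∀ ε > 0, ∃ t, Disjoint s t ∧
  ∀ v, Near s t v → |φ v - φ s| < ε

theorem cont_iff {f : C.M} (hf : Fun C.E f C.X C.R) :
    Cont C.E C.X C.T C.R C.L f ↔ LCont (C.fR f) := by
  have key : ∀ a b, C.E a C.R → C.E b C.R → ∀ s : FS, s.Nonempty →
      ((∃ y, App C.E f (C.pt s) y ∧ App C.E C.L a y ∧ App C.E C.L y b) ↔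
        C.val a < C.fR f s ∧ C.fR f s < C.val b) := by
    intro a b ha hb s hs
    constructor
    · rintro ⟨y, h1, h2, h3⟩
      obtain ⟨hy, h4⟩ := fR_eq hf hs h1
      rw [C.L_iff ha hy] at h2
      rw [C.L_iff hy hb] at h3
      rw [h4]
      exact ⟨h2, h3⟩
    · rintro ⟨h1, h2⟩
      obtain ⟨y, hy, h3, h4⟩ := fR_spec hf hs
      rw [← h4] at h1 h2
      exact ⟨y, h3, (C.L_iff ha hy).2 h1, (C.L_iff hy hb).2 h2⟩
  constructor
  · rintro ⟨-, h⟩ s hs ε hε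
    obtain ⟨r₁, h1, h2⟩ := exists_rat_btwn (show C.fR f s - ε / 2 < C.fR f s by linarith)
    obtain ⟨r₂, h3, h4⟩ := exists_rat_btwn (show C.fR f s < C.fR f s + ε / 2 by linarith)
    obtain ⟨u, hu, hu'⟩ := h _ _ (C.qc_mem r₁) (C.qc_mem r₂)
    have hsu : C.E (C.pt s) u := (hu' _).2 ⟨C.pt_mem_X hs, (key _ _ (C.qc_mem r₁) (C.qc_mem r₂)
      s hs).2 (by rw [C.val_qc, C.val_qc]; exact ⟨h2, h3⟩)⟩
    obtain ⟨t, ht, ht'⟩ := (C.T_iff.1 hu).2 s hs hsu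
    refine ⟨t, ht, fun v hv => ?_⟩
    have h5 := ((hu' _).1 (ht' v hv)).2
    rw [key _ _ (C.qc_mem r₁) (C.qc_mem r₂) v (hs.mono hv.1), C.val_qc, C.val_qc] at h5
    rw [abs_lt]
    constructor <;> linarith [h5.1, h5.2]
  · intro h
    refine ⟨hf, fun a b ha hb => ?_⟩
    obtain ⟨u, hu⟩ := C.zf.sp (P := fun x => ∃ y, App C.E f x y ∧ App C.E C.L a y ∧
      App C.E C.L y b) (by
        unfold App OPair UPair
        (repeat' (first | exact Tm.var _ | exact Tm.const _ | exact Tm.ren (by assumption) _ | assumption | apply Dfn.all | apply Dfn.ex | apply Dfn.and | apply Dfn.or | apply Dfn.iff | apply Dfn.not | apply Dfn.imp | apply Dfn.mem | apply Dfn.eq))) C.X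
    refine ⟨u, C.T_iff.2 ⟨fun x hx => ((hu x).1 hx).1, fun s hs hsu => ?_⟩, hu⟩
    have h1 := ((hu _).1 hsu).2
    rw [key _ _ ha hb s hs] at h1
    obtain ⟨t, ht, ht'⟩ := h s hs (min (C.fR f s - C.val a) (C.val b - C.fR f s))
      (lt_min (by linarith [h1.1]) (by linarith [h1.2]))
    refine ⟨t, ht, fun v hv => (hu _).2 ⟨C.pt_mem_X (hs.mono hv.1),
      (key _ _ ha hb v (hs.mono hv.1)).2 ?_⟩⟩
    have h2 := ht' v hv
    rw [lt_min_iff, abs_lt, abs_lt] at h2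
    constructor <;> linarith [h2.1.1, h2.2.2]

/-- A definable real function. -/
theorem exists_realFun {Rl : C.M → C.M → Prop} (φ : FS → ℝ)
    (hR : Dfn C.E (fun v : Fin 2 → C.M => Rl (v 0) (v 1)))
    (h : ∀ s : FS, s.Nonempty → ∃ A, Sub C.E A C.w ∧ Rl (C.pt s) A)
    (h' : ∀ (s : FS) (A : C.M), s.Nonempty → Sub C.E A C.w → Rl (C.pt s) A →
      ∀ r : ℚ, C.E (C.qv r) A ↔ (r : ℝ) < φ s) :
    ∃ f, Fun C.E f C.X C.R ∧ ∀ s : FS, s.Nonempty → C.fR f s = φ s := by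
  obtain ⟨f, hf, hf'⟩ := C.zf.exists_fun C.X C.R hR (fun x hx => by
      obtain ⟨s, hs, rfl⟩ := (C.X_mem x).1 hx
      obtain ⟨A, hA, h1⟩ := h s hs
      exact ⟨A, (C.mk_real hA (h' s A hs hA h1)).1, h1⟩) (fun x hx y y' hy hy' h1 h2 => by
      obtain ⟨s, hs, rfl⟩ := (C.X_mem x).1 hx
      refine C.val_inj hy hy' ?_
      rw [(C.mk_real (C.sub_of_mem_R hy) (h' s y hs (C.sub_of_mem_R hy) h1)).2,
        (C.mk_real (C.sub_of_mem_R hy') (h' s y' hs (C.sub_of_mem_R hy') h2)).2])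
  refine ⟨f, hf, fun s hs => ?_⟩
  obtain ⟨A, hA, h1, h2⟩ := fR_spec hf hs
  rw [← h2]
  obtain ⟨-, -, h3⟩ := (hf' _ _).1 h1
  exact (C.mk_real (C.sub_of_mem_R hA) (h' s A hs (C.sub_of_mem_R hA) h3)).2

/-- The zero set of a continuous function. -/
theorem zeroSet_iff {Z : C.M} : ZeroSet C.E C.X C.T C.R C.L (C.qc 0) Z ↔
    Sub C.E Z C.X ∧ ∃ f, Fun C.E f C.X C.R ∧ LCont (C.fR f) ∧
      ∀ s : FS, s.Nonempty → (C.E (C.pt s) Z ↔ C.fR f s = 0) := by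
  have h0 : C.val (C.qc 0) = 0 := by rw [C.val_qc]; simp
  constructor
  · rintro ⟨f, hf, h⟩
    refine ⟨fun x hx => ((h x).1 hx).1, f, hf.1, (cont_iff hf.1).1 hf, fun s hs => ?_⟩
    rw [h, app_iff hf.1 hs (C.qc_mem 0), h0]
    exact ⟨fun h => h.2, fun h => ⟨C.pt_mem_X hs, h⟩⟩
  · rintro ⟨hZ, f, hf, hc, h⟩
    refine ⟨f, (cont_iff hf).2 hc, fun x => ⟨fun hx => ?_, fun hx => ?_⟩⟩
    · refine ⟨hZ x hx, ?_⟩
      obtain ⟨s, hs, rfl⟩ := (C.X_mem x).1 (hZ x hx)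
      rw [app_iff hf hs (C.qc_mem 0), h0]
      exact (h s hs).1 hx
    · obtain ⟨s, hs, rfl⟩ := (C.X_mem x).1 hx.1
      have h1 := hx.2
      rw [app_iff hf hs (C.qc_mem 0), h0] at h1
      exact (h s hs).2 h1

/-! ### Clopen sets -/

/-- `b` is a clopen set, on the level of finite sets. -/
def LClopen (b : C.M) : Prop := ∀ s : FS, s.Nonempty → ∃ t, Disjoint s t ∧
  ∀ v, Near s t v → (C.E (C.pt v) b ↔ C.E (C.pt s) b)

/-- Functions with two values. -/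
theorem exists_two {b : C.M} (hb : LClopen b) {A A' : C.M} (hA : C.E A C.R)
    (hA' : C.E A' C.R) : ∃ f, Cont C.E C.X C.T C.R C.L f ∧
      (∀ x, C.E x C.X → C.E x b → App C.E f x A) ∧
      ∀ x, C.E x C.X → ¬ C.E x b → App C.E f x A' := by
  classical
  obtain ⟨f, hf, hf'⟩ := C.zf.exists_fun C.X C.R
    (R := fun x y => (C.E x b → y = A) ∧ (¬ C.E x b → y = A')) (by (repeat' (first | exact Tm.var _ | exact Tm.const _ | exact Tm.ren (by assumption) _ | assumption | apply Dfn.all | apply Dfn.ex | apply Dfn.and | apply Dfn.or | apply Dfn.iff | apply Dfn.not | apply Dfn.imp | apply Dfn.mem | apply Dfn.eq))) (fun x _ => by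
      by_cases h : C.E x b
      · exact ⟨A, hA, fun _ => rfl, fun h' => absurd h h'⟩
      · exact ⟨A', hA', fun h' => absurd h' h, fun _ => rfl⟩) (fun x _ y y' _ _ h1 h2 => by
      by_cases h : C.E x b
      · rw [h1.1 h, h2.1 h]
      · rw [h1.2 h, h2.2 h])
  have h1 : ∀ x, C.E x C.X → C.E x b → App C.E f x A := fun x hx h =>
    (hf' _ _).2 ⟨hx, hA, fun _ => rfl, fun h' => absurd h h'⟩
  have h2 : ∀ x, C.E x C.X → ¬ C.E x b → App C.E f x A' := fun x hx h =>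
    (hf' _ _).2 ⟨hx, hA', fun h' => absurd h' h, fun _ => rfl⟩
  refine ⟨f, (cont_iff hf).2 fun s hs ε hε => ?_, h1, h2⟩
  obtain ⟨t, ht, ht'⟩ := hb s hs
  refine ⟨t, ht, fun v hv => ?_⟩
  have h3 : C.fR f v = C.fR f s := by
    by_cases h : C.E (C.pt s) b
    · rw [(fR_eq hf hs (h1 _ (C.pt_mem_X hs) h)).2,
        (fR_eq hf (hs.mono hv.1) (h1 _ (C.pt_mem_X (hs.mono hv.1)) ((ht' v hv).2 h))).2]
    · rw [(fR_eq hf hs (h2 _ (C.pt_mem_X hs) h)).2,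
        (fR_eq hf (hs.mono hv.1) (h2 _ (C.pt_mem_X (hs.mono hv.1))
          (fun h' => h ((ht' v hv).1 h')))).2]
  rw [h3, sub_self, abs_zero]
  exact hε

/-- Clopen subsets of `X` are zero sets. -/
theorem zeroSet_of_clopen {b : C.M} (hbX : Sub C.E b C.X) (hb : LClopen b) :
    ZeroSet C.E C.X C.T C.R C.L (C.qc 0) b := by
  obtain ⟨f, hf, h1, h2⟩ := exists_two hb (C.qc_mem 0) (C.qc_mem 1)
  refine ⟨f, hf, fun x => ⟨fun hx => ⟨hbX x hx, h1 x (hbX x hx) hx⟩, fun hx => ?_⟩⟩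
  by_contra hcon
  have h3 := hf.1.2.2 _ _ _ hx.2 (h2 x hx.1 hcon)
  have h4 : C.val (C.qc 0) = C.val (C.qc 1) := by rw [h3]
  rw [C.val_qc, C.val_qc] at h4
  norm_num at h4

theorem clopen_U (s t : FS) : LClopen (C.U s t) := by
  intro u hu
  by_cases h1 : s ⊆ u
  · by_cases h2 : Disjoint u t
    · refine ⟨t, h2, fun v hv => ?_⟩
      rw [C.pt_mem_U hu, C.pt_mem_U (hu.mono hv.1)]
      exact ⟨fun _ => ⟨h1, h2⟩, fun _ => ⟨h1.trans hv.1, hv.2⟩⟩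
    · refine ⟨∅, Finset.disjoint_empty_right u, fun v hv => ?_⟩
      rw [C.pt_mem_U hu, C.pt_mem_U (hu.mono hv.1)]
      refine ⟨fun h => absurd ?_ h2, fun h => absurd h.2 h2⟩
      exact Finset.disjoint_of_subset_left hv.1 h.2
  · obtain ⟨a, ha, ha'⟩ := Finset.not_subset.1 h1
    refine ⟨{a}, by simpa using ha', fun v hv => ?_⟩
    rw [C.pt_mem_U hu, C.pt_mem_U (hu.mono hv.1)]
    refine ⟨fun h => absurd (h.1 ha) ?_, fun h => absurd h.1 h1⟩
    have := hv.2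
    simpa using this

theorem tychonoff : Tychonoff C.E C.X C.T C.R C.L := by
  refine ⟨C.top_T, fun x hx => ?_, fun u x a b hu hx ha hb => ?_⟩
  · obtain ⟨s, hs, rfl⟩ := (C.X_mem x).1 hx
    obtain ⟨u, hu⟩ := C.zf.sp (P := fun y => y ≠ C.pt s) (by
      unfold Ne
      (repeat' (first | exact Tm.var _ | exact Tm.const _ | exact Tm.ren (by assumption) _ | assumption | apply Dfn.all | apply Dfn.ex | apply Dfn.and | apply Dfn.or | apply Dfn.iff | apply Dfn.not | apply Dfn.imp | apply Dfn.mem | apply Dfn.eq))) C.X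
    refine ⟨u, C.T_iff.2 ⟨fun y hy => ((hu y).1 hy).1, fun v hv hvu => ?_⟩, hu⟩
    have h1 : v ≠ s := fun h => ((hu _).1 hvu).2 (by rw [h])
    by_cases h2 : v ⊆ s
    · have h3 : ¬ s ⊆ v := fun h => h1 (Finset.Subset.antisymm h2 h)
      obtain ⟨c, hc, hc'⟩ := Finset.not_subset.1 h3
      refine ⟨{c}, by simpa using hc', fun z hz => (hu _).2 ⟨C.pt_mem_X (hv.mono hz.1), ?_⟩⟩
      rw [Ne, C.pt_inj]
      rintro rfl
      have := hz.2
      simp only [Finset.disjoint_singleton_right] at this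
      exact this hc
    · obtain ⟨c, hc, hc'⟩ := Finset.not_subset.1 h2
      refine ⟨∅, Finset.disjoint_empty_right v, fun z hz => (hu _).2
        ⟨C.pt_mem_X (hv.mono hz.1), ?_⟩⟩
      rw [Ne, C.pt_inj]
      rintro rfl
      exact hc' (hz.1 hc)
  · have hxX := (C.T_iff.1 hu).1 x hx
    obtain ⟨s, hs, rfl⟩ := (C.X_mem x).1 hxX
    obtain ⟨t, ht, ht'⟩ := (C.T_iff.1 hu).2 s hs hx
    obtain ⟨f, hf, h1, h2⟩ := exists_two (clopen_U s t) ha hb
    refine ⟨f, hf, h1 _ hxX ((C.pt_mem_U hs).2 ⟨Finset.Subset.refl s, ht⟩), fun y hy hyu =>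
      h2 y hy fun h => hyu ?_⟩
    obtain ⟨v, -, h3, h4, rfl⟩ := (C.U_mem _ _ _).1 h
    exact ht' v ⟨h3, h4⟩

end CModel

end Pool.Agent.helper57.RC
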