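import Mathlib
import Pool.Agent.helper57.RC.Space

set_option autoImplicit false

/-!
# z-ultrafilters with the countable intersection property are fixed
-/

namespace Pool.Agent.helper57.RC

open Pool.Agent.helper57.Fc Pool.Agent.helper57.Fc.Sem

/-- The supremum of `0` and all `1 / (k + 1)`, `k ∈ K`. -/
noncomputable def psi (K : Set ℕ) : ℝ := sSup ({0} ∪ (fun k : ℕ => 1 / ((k : ℝ) + 1)) '' K)

theorem psi_bdd (K : Set ℕ) : BddAbove ({0} ∪ (fun k : ℕ => 1 / ((k : ℝ) + 1)) '' K) := by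
  refine ⟨1, ?_⟩
  rintro x (rfl | ⟨k, -, rfl⟩)
  · exact zero_le_one
  · have : (0 : ℝ) ≤ k := Nat.cast_nonneg k
    change 1 / ((k : ℝ) + 1) ≤ 1
    rw [div_le_one (by linarith)]
    linarith

theorem psi_ne (K : Set ℕ) : ({0} ∪ (fun k : ℕ => 1 / ((k : ℝ) + 1)) '' K : Set ℝ).Nonempty :=
  ⟨0, Or.inl rfl⟩

theorem lt_psi {K : Set ℕ} {r : ℝ} : r < psi K ↔ r < 0 ∨ ∃ k ∈ K, r < 1 / ((k : ℝ) + 1) := by
  rw [psi, lt_csSup_iff (psi_bdd K) (psi_ne K)]
  constructor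
  · rintro ⟨b, rfl | ⟨k, hk, rfl⟩, h⟩
    · exact Or.inl h
    · exact Or.inr ⟨k, hk, h⟩
  · rintro (h | ⟨k, hk, h⟩)
    · exact ⟨0, Or.inl rfl, h⟩
    · exact ⟨_, Or.inr ⟨k, hk, rfl⟩, h⟩

theorem psi_nonneg (K : Set ℕ) : 0 ≤ psi K := le_csSup (psi_bdd K) (Or.inl rfl)

theorem le_psi {K : Set ℕ} {k : ℕ} (hk : k ∈ K) : 1 / ((k : ℝ) + 1) ≤ psi K :=
  le_csSup (psi_bdd K) (Or.inr ⟨k, hk, rfl⟩)

theorem psi_eq_zero {K : Set ℕ} : psi K = 0 ↔ K = ∅ := by
  constructor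
  · intro h
    by_contra hne
    obtain ⟨k, hk⟩ := Set.nonempty_iff_ne_empty.2 hne
    have h1 := le_psi hk
    have h2 : (0 : ℝ) < 1 / ((k : ℝ) + 1) := by positivity
    linarith
  · rintro rfl
    rw [psi, Set.image_empty, Set.union_empty, csSup_singleton]

theorem psi_le {K K' : Set ℕ} {m : ℕ} (h : ∀ k ≤ m, k ∈ K → k ∈ K') :
    psi K ≤ psi K' + 1 / ((m : ℝ) + 1) := by
  have hm : (0 : ℝ) < 1 / ((m : ℝ) + 1) := by positivity
  refine csSup_le (psi_ne K) ?_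
  rintro x (rfl | ⟨k, hk, rfl⟩)
  · linarith [psi_nonneg K']
  · by_cases hkm : k ≤ m
    · have := le_psi (h k hkm hk)
      change 1 / ((k : ℝ) + 1) ≤ _
      linarith
    · push Not at hkm
      have h1 : 1 / ((k : ℝ) + 1) ≤ 1 / ((m : ℝ) + 1) := by
        apply one_div_le_one_div_of_le
        · positivity
        · have : (m : ℝ) ≤ k := by exact_mod_cast hkm.le
          linarith
      have := psi_nonneg K'
      change 1 / ((k : ℝ) + 1) ≤ _
      linarith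

namespace CModel

variable {C : CModel}

/-- Zero sets are closed under intersection. -/
theorem zeroSet_inter {Z Z' V : C.M} (hZ : ZeroSet C.E C.X C.T C.R C.L (C.qc 0) Z)
    (hZ' : ZeroSet C.E C.X C.T C.R C.L (C.qc 0) Z') (hV : ∀ t, C.E t V ↔ C.E t Z ∧ C.E t Z') :
    ZeroSet C.E C.X C.T C.R C.L (C.qc 0) V := by
  rw [zeroSet_iff] at hZ hZ' ⊢
  obtain ⟨hZX, f, hf, hfc, hf0⟩ := hZ
  obtain ⟨-, g, hg, hgc, hg0⟩ := hZ'
  refine ⟨fun x hx => hZX x ((hV x).1 hx).1, ?_⟩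
  obtain ⟨h, hh, hh'⟩ := exists_realFun (C := C) (fun s => max |C.fR f s| |C.fR g s|)
    (Rl := fun x B => ∃ A A', App C.E f x A ∧ App C.E g x A' ∧ ∀ t, C.E t B ↔ C.E t C.w ∧
      (C.E t A ∨ C.E t A' ∨ (∃ s s', C.E s C.w ∧ ¬ C.E s A ∧ App C.E C.nq s s' ∧
        App C.E C.lq t s') ∨ (∃ s s', C.E s C.w ∧ ¬ C.E s A' ∧ App C.E C.nq s s' ∧
        App C.E C.lq t s'))) (by
      unfold App OPair UPair
      (repeat' (first | exact Tm.var _ | exact Tm.const _ | exact Tm.ren (by assumption) _ | assumption | apply Dfn.all | apply Dfn.ex | apply Dfn.and | apply Dfn.or | apply Dfn.iff | apply Dfn.not | apply Dfn.imp | apply Dfn.mem | apply Dfn.eq))) (fun s hs => by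
      obtain ⟨A, hA, h1, -⟩ := fR_spec hf hs
      obtain ⟨A', hA', h2, -⟩ := fR_spec hg hs
      obtain ⟨B, hB⟩ := C.zf.sp (P := fun t => (C.E t A ∨ C.E t A' ∨
        (∃ s s', C.E s C.w ∧ ¬ C.E s A ∧ App C.E C.nq s s' ∧
        App C.E C.lq t s') ∨ (∃ s s', C.E s C.w ∧ ¬ C.E s A' ∧ App C.E C.nq s s' ∧
        App C.E C.lq t s'))) (by
        unfold App OPair UPair
        (repeat' (first | exact Tm.var _ | exact Tm.const _ | exact Tm.ren (by assumption) _ | assumption | apply Dfn.all | apply Dfn.ex | apply Dfn.and | apply Dfn.or | apply Dfn.iff | apply Dfn.not | apply Dfn.imp | apply Dfn.mem | apply Dfn.eq))) C.w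
      exact ⟨B, fun t ht => ((hB t).1 ht).1, A, A', h1, h2, hB⟩) (fun s B hs hBw hRl r => by
      obtain ⟨A, A', h1, h2, hB⟩ := hRl
      obtain ⟨hA, hfA⟩ := fR_eq hf hs h1
      obtain ⟨hA', hgA⟩ := fR_eq hg hs h2
      have hneg : ∀ A, C.E A C.R → ((∃ s s', C.E s C.w ∧ ¬ C.E s A ∧ App C.E C.nq s s' ∧
          App C.E C.lq (C.qv r) s') ↔ (r : ℝ) < -C.val A) := by
        intro A hA
        constructor
        · rintro ⟨s, s', h3, h4, h5, h6⟩
          obtain ⟨s, rfl⟩ := (C.w_mem' _).1 h3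
          obtain ⟨-, s', rfl⟩ := C.lq_dom h6
          rw [C.mem_cs_iff hA, not_lt] at h4
          rw [C.nq_iff] at h5
          rw [C.lq_iff] at h6
          have h7 : (r : ℝ) < s' := by exact_mod_cast h6
          rw [h5] at h7
          push_cast at h7
          linarith
        · intro h3
          obtain ⟨s, h4, h5⟩ := exists_rat_btwn (show C.val A < -(r : ℝ) by linarith)
          refine ⟨C.qv s, C.qv (-s), C.qv_mem_w s, ?_, C.nq_iff.2 rfl, C.lq_iff.2 ?_⟩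
          · rw [C.mem_cs_iff hA, not_lt]
            exact h4.le
          · have : (r : ℝ) < ((-s : ℚ) : ℝ) := by push_cast; linarith
            exact_mod_cast this
      rw [hB, hneg A hA, hneg A' hA', C.mem_cs_iff hA, C.mem_cs_iff hA', hfA, hgA]
      rw [lt_max_iff, lt_abs, lt_abs]
      have := C.qv_mem_w r
      tauto)
  refine ⟨h, hh, fun s hs ε hε => ?_, fun s hs => ?_⟩
  · obtain ⟨t, ht, h1⟩ := hfc s hs ε hε
    obtain ⟨t', ht', h2⟩ := hgc s hs ε hε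
    refine ⟨t ∪ t', Finset.disjoint_union_right.2 ⟨ht, ht'⟩, fun v hv => ?_⟩
    have h3 := Finset.disjoint_union_right.1 hv.2
    rw [hh' s hs, hh' v (hs.mono hv.1)]
    refine (abs_max_sub_max_le_max _ _ _ _).trans_lt (max_lt ?_ ?_)
    · exact (abs_abs_sub_abs_le _ _).trans_lt (h1 v ⟨hv.1, h3.1⟩)
    · exact (abs_abs_sub_abs_le _ _).trans_lt (h2 v ⟨hv.1, h3.2⟩)
  · rw [hV, hf0 s hs, hg0 s hs, hh' s hs]
    constructor
    · rintro ⟨h1, h2⟩
      rw [h1, h2]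
      simp
    · intro h1
      have h2 := le_max_left |C.fR f s| |C.fR g s|
      have h3 := le_max_right |C.fR f s| |C.fR g s|
      rw [h1] at h2 h3
      exact ⟨abs_nonpos_iff.1 h2, abs_nonpos_iff.1 h3⟩

/-- The set of all points which agree with `y` on `D_N` is a zero set. -/
theorem zeroSet_agree (N : ℕ) (y A : C.M)
    (hA : ∀ x, C.E x A ↔ C.E x C.X ∧ ∀ t, C.E t (C.Dn N) → (C.E t x ↔ C.E t y)) :
    ZeroSet C.E C.X C.T C.R C.L (C.qc 0) A := by
  rw [zeroSet_iff]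
  refine ⟨fun x hx => ((hA x).1 hx).1, ?_⟩
  let K : FS → Set ℕ := fun s => {k | ¬ (enum N k ∈ s ↔ C.E (C.d (enum N k)) y)}
  obtain ⟨f, hf, hf'⟩ := exists_realFun (C := C) (fun s => psi (K s))
    (Rl := fun x B => ∀ t, C.E t B ↔ C.E t C.w ∧ (App C.E C.lq t (C.qv 0) ∨
      ∃ k u v, App C.E (C.e N) k u ∧ ¬ (C.E u x ↔ C.E u y) ∧ App C.E C.iq k v ∧
        App C.E C.lq t v)) (by
      unfold App OPair UPair
      (repeat' (first | exact Tm.var _ | exact Tm.const _ | exact Tm.ren (by assumption) _ | assumption | apply Dfn.all | apply Dfn.ex | apply Dfn.and | apply Dfn.or | apply Dfn.iff | apply Dfn.not | apply Dfn.imp | apply Dfn.mem | apply Dfn.eq))) (fun s hs => by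
      obtain ⟨B, hB⟩ := C.zf.sp (P := fun t => (App C.E C.lq t (C.qv 0) ∨
        ∃ k u v, App C.E (C.e N) k u ∧ ¬ (C.E u (C.pt s) ↔ C.E u y) ∧ App C.E C.iq k v ∧
        App C.E C.lq t v)) (by
        unfold App OPair UPair
        (repeat' (first | exact Tm.var _ | exact Tm.const _ | exact Tm.ren (by assumption) _ | assumption | apply Dfn.all | apply Dfn.ex | apply Dfn.and | apply Dfn.or | apply Dfn.iff | apply Dfn.not | apply Dfn.imp | apply Dfn.mem | apply Dfn.eq))) C.w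
      exact ⟨B, fun t ht => ((hB t).1 ht).1, hB⟩) (fun s B hs hBw hRl r => by
      rw [hRl, lt_psi, C.lq_iff]
      have h1 : (∃ k u v, App C.E (C.e N) k u ∧ ¬ (C.E u (C.pt s) ↔ C.E u y) ∧
          App C.E C.iq k v ∧ App C.E C.lq (C.qv r) v) ↔ ∃ k ∈ K s, (r : ℝ) < 1 / ((k : ℝ) + 1) := by
        constructor
        · rintro ⟨k, u, v, h1, h2, h3, h4⟩
          obtain ⟨k, rfl, rfl⟩ := (C.e_app _ _ _).1 h1
          obtain ⟨-, v, rfl⟩ := C.lq_dom h4
          rw [C.d_mem_pt] at h2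
          rw [C.iq_iff] at h3
          rw [C.lq_iff] at h4
          refine ⟨k, h2, ?_⟩
          have h5 : (r : ℝ) < (v : ℝ) := by exact_mod_cast h4
          rw [h3] at h5
          push_cast at h5
          exact h5
        · rintro ⟨k, h2, h3⟩
          refine ⟨C.nv k, C.d (enum N k), C.qv (1 / ((k : ℚ) + 1)), (C.e_app _ _ _).2 ⟨k, rfl, rfl⟩,
            ?_, C.iq_iff.2 rfl, C.lq_iff.2 ?_⟩
          · rw [C.d_mem_pt]
            exact h2
          · have : (r : ℝ) < ((1 / ((k : ℚ) + 1) : ℚ) : ℝ) := by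
              push_cast
              exact h3
            exact_mod_cast this
      rw [h1]
      have h2 := C.qv_mem_w r
      have h3 : (r : ℝ) < 0 ↔ r < 0 := by exact_mod_cast Iff.rfl
      rw [h3]
      tauto)
  refine ⟨f, hf, fun s hs ε hε => ?_, fun s hs => ?_⟩
  · obtain ⟨m, hm⟩ := exists_nat_one_div_lt hε
    refine ⟨((Finset.range (m + 1)).image (enum N)) \ s, Finset.disjoint_sdiff, fun v hv => ?_⟩
    have hK : ∀ k ≤ m, (k ∈ K v ↔ k ∈ K s) := by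
      intro k hk
      have h1 : enum N k ∈ v ↔ enum N k ∈ s := by
        constructor
        · intro h
          by_contra hcon
          refine Finset.disjoint_left.1 hv.2 h (Finset.mem_sdiff.2 ⟨?_, hcon⟩)
          exact Finset.mem_image_of_mem _ (Finset.mem_range.2 (by omega))
        · exact fun h => hv.1 h
      change ¬ (enum N k ∈ v ↔ _) ↔ ¬ (enum N k ∈ s ↔ _)
      rw [h1]
    rw [hf' s hs, hf' v (hs.mono hv.1), abs_lt]
    have h1 := psi_le (K := K v) (K' := K s) (m := m) fun k hk => (hK k hk).1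
    have h2 := psi_le (K := K s) (K' := K v) (m := m) fun k hk => (hK k hk).2
    constructor <;> linarith
  · rw [hf' s hs, psi_eq_zero, hA]
    constructor
    · rintro ⟨-, h⟩
      ext k
      simp only [Set.mem_empty_iff_false, iff_false]
      intro hk
      apply hk
      rw [← C.d_mem_pt]
      exact h _ ((C.Dn_mem _ _).2 ⟨_, enum_le N k, rfl⟩)
    · intro h
      refine ⟨C.pt_mem_X hs, fun t ht => ?_⟩
      obtain ⟨a, ha, rfl⟩ := (C.Dn_mem _ _).1 ht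
      obtain ⟨k, rfl⟩ := exists_enum_eq ha
      rw [C.d_mem_pt]
      by_contra hcon
      have : k ∈ K s := hcon
      rw [h] at this
      exact this

section Ultra

variable {F : C.M} (hF : ZUltrafilter C.E C.X C.T C.R C.L (C.qc 0) F)

include hF

omit hF in
theorem exists_inter {W : C.M} (V : C.M) : ∃ Z, ∀ t, C.E t Z ↔ C.E t W ∧ C.E t V :=
  C.zf.sp (P := fun t => C.E t V) (by (repeat' (first | exact Tm.var _ | exact Tm.const _ | exact Tm.ren (by assumption) _ | assumption | apply Dfn.all | apply Dfn.ex | apply Dfn.and | apply Dfn.or | apply Dfn.iff | apply Dfn.not | apply Dfn.imp | apply Dfn.mem | apply Dfn.eq))) W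

/-- Maximality. -/
theorem zmax {Z : C.M} (hZ : ZeroSet C.E C.X C.T C.R C.L (C.qc 0) Z)
    (h : ∀ W, C.E W F → ∃ x, C.E x W ∧ C.E x Z) : C.E Z F := by
  obtain ⟨hF1, hF2⟩ := hF
  obtain ⟨p, hp⟩ := C.zf.power C.X
  obtain ⟨F', hF'⟩ := C.zf.sp (P := fun Z' => ZeroSet C.E C.X C.T C.R C.L (C.qc 0) Z' ∧
    ∃ W, C.E W F ∧ ∀ x, C.E x W → C.E x Z → C.E x Z') (by
      apply Dfn.and
      · exact Dfn.zeroSet (Tm.const _) (Tm.const _) (Tm.const _) (Tm.const _) (Tm.const _)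
          (Tm.var _)
      · (repeat' (first | exact Tm.var _ | exact Tm.const _ | exact Tm.ren (by assumption) _ | assumption | apply Dfn.all | apply Dfn.ex | apply Dfn.and | apply Dfn.or | apply Dfn.iff | apply Dfn.not | apply Dfn.imp | apply Dfn.mem | apply Dfn.eq))) p
  have hF'' : ∀ Z', C.E Z' F' ↔ ZeroSet C.E C.X C.T C.R C.L (C.qc 0) Z' ∧
      ∃ W, C.E W F ∧ ∀ x, C.E x W → C.E x Z → C.E x Z' := by
    intro Z'
    rw [hF']
    refine ⟨fun h => h.2, fun h => ⟨?_, h⟩⟩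
    rw [hp]
    exact (zeroSet_iff.1 h.1).1
  obtain ⟨⟨W₀, hW₀⟩, hF3, hF4, hF5⟩ := hF1
  refine hF2 F' ⟨⟨Z, (hF'' Z).2 ⟨hZ, W₀, hW₀, fun x _ hx => hx⟩⟩, fun Z' hZ' => ?_,
    fun Z' Z'' V h1 h2 hV => ?_, fun Z' Z'' h1 h2 h3 => ?_⟩ (fun Z' hZ' => ?_) Z
    ((hF'' Z).2 ⟨hZ, W₀, hW₀, fun x _ hx => hx⟩)
  · obtain ⟨h1, W, hW, h2⟩ := (hF'' _).1 hZ'
    obtain ⟨x, hx, hx'⟩ := h W hW
    exact ⟨h1, x, h2 x hx hx'⟩
  · obtain ⟨h3, W, hW, h4⟩ := (hF'' _).1 h1
    obtain ⟨h5, W', hW', h6⟩ := (hF'' _).1 h2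
    obtain ⟨W'', hW''⟩ := C.zf.sp (P := fun t => C.E t W') (by (repeat' (first | exact Tm.var _ | exact Tm.const _ | exact Tm.ren (by assumption) _ | assumption | apply Dfn.all | apply Dfn.ex | apply Dfn.and | apply Dfn.or | apply Dfn.iff | apply Dfn.not | apply Dfn.imp | apply Dfn.mem | apply Dfn.eq))) W
    refine (hF'' _).2 ⟨zeroSet_inter h3 h5 hV, W'', hF4 W W' W'' hW hW' hW'', fun x hx hxZ => ?_⟩
    exact (hV x).2 ⟨h4 x ((hW'' x).1 hx).1 hxZ, h6 x ((hW'' x).1 hx).2 hxZ⟩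
  · obtain ⟨h4, W, hW, h5⟩ := (hF'' _).1 h1
    exact (hF'' _).2 ⟨h2, W, hW, fun x hx hxZ => h3 x (h5 x hx hxZ)⟩
  · exact (hF'' _).2 ⟨(hF3 Z' hZ').1, Z', hZ', fun x hx _ => hx⟩

theorem mem_or (a : ℕ × ℕ) : C.E (C.U {a} ∅) F ∨ C.E (C.U ∅ {a}) F := by
  by_contra hcon
  push Not at hcon
  have hU : ∀ s t, Sub C.E (C.U s t) C.X := fun s t x hx => by
    obtain ⟨u, hu, -, -, rfl⟩ := (C.U_mem _ _ _).1 hx
    exact C.pt_mem_X hu
  have h1 : ∃ W, C.E W F ∧ ∀ x, C.E x W → ¬ C.E x (C.U {a} ∅) := by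
    by_contra hcon'
    push Not at hcon'
    exact hcon.1 (zmax hF (zeroSet_of_clopen (hU _ _) (clopen_U _ _)) fun W hW => hcon' W hW)
  obtain ⟨W, hW, h2⟩ := h1
  refine hcon.2 (hF.1.2.2.2 W _ hW (zeroSet_of_clopen (hU _ _) (clopen_U _ _)) fun x hx => ?_)
  have hxX := (zeroSet_iff.1 (hF.1.2.1 W hW).1).1 x hx
  obtain ⟨s, hs, rfl⟩ := (C.X_mem x).1 hxX
  have h3 := h2 _ hx
  rw [C.pt_mem_U hs] at h3 ⊢
  simpa using h3

/-- A z-ultrafilter with the countable intersection property is fixed. -/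
theorem fixed (hcip : CIP C.E F) : Fixed C.E F := by
  have hU : ∀ s t, Sub C.E (C.U s t) C.X := fun s t x hx => by
    obtain ⟨u, hu, -, -, rfl⟩ := (C.U_mem _ _ _).1 hx
    exact C.pt_mem_X hu
  have hFX : ∀ W, C.E W F → Sub C.E W C.X := fun W hW => (zeroSet_iff.1 (hF.1.2.1 W hW).1).1
  -- the set `y`
  obtain ⟨D, hD⟩ := C.zf.union C.X
  obtain ⟨y, hy⟩ := C.zf.sp (P := fun t => ∃ Z, C.E Z F ∧ ∀ x, C.E x Z ↔ C.E x C.X ∧ C.E t x)
    (by (repeat' (first | exact Tm.var _ | exact Tm.const _ | exact Tm.ren (by assumption) _ | assumption | apply Dfn.all | apply Dfn.ex | apply Dfn.and | apply Dfn.or | apply Dfn.iff | apply Dfn.not | apply Dfn.imp | apply Dfn.mem | apply Dfn.eq))) D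
  have hy' : ∀ a, C.E (C.d a) y ↔ C.E (C.U {a} ∅) F := by
    intro a
    rw [hy]
    constructor
    · rintro ⟨-, Z, hZ, h⟩
      have : Z = C.U {a} ∅ := by
        refine C.zf.ext _ _ fun x => ?_
        rw [h]
        constructor
        · rintro ⟨h1, h2⟩
          obtain ⟨s, hs, rfl⟩ := (C.X_mem x).1 h1
          rw [C.d_mem_pt] at h2
          rw [C.pt_mem_U hs]
          simpa using h2
        · intro h1
          have h2 := hU _ _ x h1
          obtain ⟨s, hs, rfl⟩ := (C.X_mem x).1 h2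
          rw [C.pt_mem_U hs] at h1
          refine ⟨h2, ?_⟩
          rw [C.d_mem_pt]
          simpa using h1
      rw [← this]
      exact hZ
    · intro h
      refine ⟨(hD _).2 ⟨C.pt {a}, C.pt_mem_X (Finset.singleton_nonempty a), by
        rw [C.d_mem_pt]; simp⟩, _, h, fun x => ⟨fun h1 => ?_, fun h1 => ?_⟩⟩
      · have h2 := hU _ _ x h1
        obtain ⟨s, hs, rfl⟩ := (C.X_mem x).1 h2
        rw [C.pt_mem_U hs] at h1
        refine ⟨h2, ?_⟩
        rw [C.d_mem_pt]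
        simpa using h1
      · obtain ⟨s, hs, rfl⟩ := (C.X_mem x).1 h1.1
        have h2 := h1.2
        rw [C.d_mem_pt] at h2
        rw [C.pt_mem_U hs]
        simpa using h2
  -- the first use of the countable intersection property
  have hagree : ∀ N W, C.E W F → ∃ x, C.E x W ∧ ∀ t, C.E t (C.Dn N) → (C.E t x ↔ C.E t y) := by
    intro N W hW
    obtain ⟨g, hg, hg'⟩ := C.zf.exists_fun C.w F
      (R := fun k Z => ∃ u, App C.E (C.e N) k u ∧ ∀ x, C.E x Z ↔ C.E x W ∧ (C.E u x ↔ C.E u y))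
      (by
        unfold App OPair UPair
        (repeat' (first | exact Tm.var _ | exact Tm.const _ | exact Tm.ren (by assumption) _ | assumption | apply Dfn.all | apply Dfn.ex | apply Dfn.and | apply Dfn.or | apply Dfn.iff | apply Dfn.not | apply Dfn.imp | apply Dfn.mem | apply Dfn.eq))) (fun k hk => by
      obtain ⟨n, rfl⟩ := (C.w_mem k).1 hk
      set a := enum N n with ha
      have hcase : ∀ V, C.E V F → (∀ s : FS, s.Nonempty → (C.E (C.pt s) V ↔
          (a ∈ s ↔ C.E (C.d a) y))) → ∃ Z, C.E Z F ∧ ∃ u, App C.E (C.e N) (C.nv n) u ∧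
          ∀ x, C.E x Z ↔ C.E x W ∧ (C.E u x ↔ C.E u y) := by
        intro V hV hV'
        obtain ⟨Z, hZ⟩ := exists_inter (W := W) V
        refine ⟨Z, hF.1.2.2.1 W V Z hW hV hZ, C.d a, (C.e_app _ _ _).2 ⟨n, rfl, rfl⟩, fun x => ?_⟩
        rw [hZ]
        refine and_congr_right fun hxW => ?_
        obtain ⟨s, hs, rfl⟩ := (C.X_mem x).1 (hFX W hW x hxW)
        rw [hV' s hs, C.d_mem_pt]
      rcases mem_or hF a with h | h
      · refine hcase _ h fun s hs => ?_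
        rw [C.pt_mem_U hs, hy']
        simp [h]
      · have h2 : ¬ C.E (C.U {a} ∅) F := by
          intro h3
          obtain ⟨Z, hZ⟩ := exists_inter (W := C.U {a} ∅) (C.U ∅ {a})
          obtain ⟨-, x, hx⟩ := hF.1.2.1 Z (hF.1.2.2.1 _ _ Z h3 h hZ)
          obtain ⟨h4, h5⟩ := (hZ x).1 hx
          obtain ⟨s, hs, rfl⟩ := (C.X_mem x).1 (hU _ _ x h4)
          rw [C.pt_mem_U hs] at h4 h5
          simp at h4 h5
          exact h5 h4
        refine hcase _ h fun s hs => ?_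
        rw [C.pt_mem_U hs, hy']
        simp [h2]) (fun k _ Z Z' _ _ h1 h2 => by
      obtain ⟨u, hu, h3⟩ := h1
      obtain ⟨u', hu', h4⟩ := h2
      obtain ⟨n, rfl, rfl⟩ := (C.e_app _ _ _).1 hu
      obtain ⟨n', h5, rfl⟩ := (C.e_app _ _ _).1 hu'
      rw [C.nv_inj.eq_iff] at h5
      subst h5
      exact C.zf.ext _ _ fun x => (h3 x).trans (h4 x).symm)
    obtain ⟨x, hx⟩ := hcip C.w g C.omega_w hg
    have hx' : ∀ n, C.E x W ∧ (C.E (C.d (enum N n)) x ↔ C.E (C.d (enum N n)) y) := by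
      intro n
      obtain ⟨Z, hZ, h1⟩ := hg.2.1 (C.nv n) ((C.w_mem _).2 ⟨n, rfl⟩)
      have h2 := hx _ _ h1
      obtain ⟨-, -, u, hu, h3⟩ := (hg' _ _).1 h1
      obtain ⟨n', h5, rfl⟩ := (C.e_app _ _ _).1 hu
      rw [C.nv_inj.eq_iff] at h5
      subst h5
      exact (h3 x).1 h2
    refine ⟨x, (hx' 0).1, fun t ht => ?_⟩
    obtain ⟨a, ha, rfl⟩ := (C.Dn_mem _ _).1 ht
    obtain ⟨n, rfl⟩ := exists_enum_eq ha
    exact (hx' n).2
  -- the sets `A_N`
  have hA : ∀ N, ∃ A, C.E A F ∧ ∀ x, C.E x A ↔ C.E x C.X ∧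
      ∀ t, C.E t (C.Dn N) → (C.E t x ↔ C.E t y) := by
    intro N
    obtain ⟨A, hA⟩ := C.zf.sp (P := fun x => ∀ t, C.E t (C.Dn N) → (C.E t x ↔ C.E t y))
      (by (repeat' (first | exact Tm.var _ | exact Tm.const _ | exact Tm.ren (by assumption) _ | assumption | apply Dfn.all | apply Dfn.ex | apply Dfn.and | apply Dfn.or | apply Dfn.iff | apply Dfn.not | apply Dfn.imp | apply Dfn.mem | apply Dfn.eq))) C.X
    refine ⟨A, zmax hF (zeroSet_agree N y A hA) fun W hW => ?_, hA⟩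
    obtain ⟨x, hx, hx'⟩ := hagree N W hW
    exact ⟨x, hx, (hA x).2 ⟨hFX W hW x hx, hx'⟩⟩
  -- the second use
  have hpoint : ∀ W, C.E W F → ∃ s : FS, s.Nonempty ∧ C.E (C.pt s) W ∧
      ∀ a, a ∈ s ↔ C.E (C.d a) y := by
    intro W hW
    obtain ⟨g, hg, hg'⟩ := C.zf.exists_fun C.w F
      (R := fun k Z => ∃ D, App C.E C.DS k D ∧ ∀ x, C.E x Z ↔ C.E x W ∧
        ∀ t, C.E t D → (C.E t x ↔ C.E t y))
      (by
        unfold App OPair UPair
        (repeat' (first | exact Tm.var _ | exact Tm.const _ | exact Tm.ren (by assumption) _ | assumption | apply Dfn.all | apply Dfn.ex | apply Dfn.and | apply Dfn.or | apply Dfn.iff | apply Dfn.not | apply Dfn.imp | apply Dfn.mem | apply Dfn.eq))) (fun k hk => by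
      obtain ⟨n, rfl⟩ := (C.w_mem k).1 hk
      obtain ⟨A, hAF, hA⟩ := hA n
      obtain ⟨Z, hZ⟩ := exists_inter (W := W) A
      refine ⟨Z, hF.1.2.2.1 W A Z hW hAF hZ, C.Dn n, (C.DS_app _ _).2 ⟨n, rfl, rfl⟩, fun x => ?_⟩
      rw [hZ, hA]
      have := hFX W hW x
      tauto) (fun k _ Z Z' _ _ h1 h2 => by
      obtain ⟨u, hu, h3⟩ := h1
      obtain ⟨u', hu', h4⟩ := h2
      obtain ⟨n, rfl, rfl⟩ := (C.DS_app _ _).1 hu
      obtain ⟨n', h5, rfl⟩ := (C.DS_app _ _).1 hu'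
      rw [C.nv_inj.eq_iff] at h5
      subst h5
      exact C.zf.ext _ _ fun x => (h3 x).trans (h4 x).symm)
    obtain ⟨x, hx⟩ := hcip C.w g C.omega_w hg
    have hx' : ∀ n, C.E x W ∧ ∀ t, C.E t (C.Dn n) → (C.E t x ↔ C.E t y) := by
      intro n
      obtain ⟨Z, hZ, h1⟩ := hg.2.1 (C.nv n) ((C.w_mem _).2 ⟨n, rfl⟩)
      have h2 := hx _ _ h1
      obtain ⟨-, -, u, hu, h3⟩ := (hg' _ _).1 h1
      obtain ⟨n', h5, rfl⟩ := (C.DS_app _ _).1 hu
      rw [C.nv_inj.eq_iff] at h5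
      subst h5
      exact (h3 x).1 h2
    obtain ⟨s, hs, rfl⟩ := (C.X_mem x).1 (hFX W hW x (hx' 0).1)
    refine ⟨s, hs, (hx' 0).1, fun a => ?_⟩
    rw [← C.d_mem_pt]
    exact (hx' a.1).2 _ ((C.Dn_mem _ _).2 ⟨a, le_rfl, rfl⟩)
  obtain ⟨W₀, hW₀⟩ := hF.1.1
  obtain ⟨s, hs, -, h1⟩ := hpoint W₀ hW₀
  refine ⟨C.pt s, fun W hW => ?_⟩
  obtain ⟨s', hs', h2, h3⟩ := hpoint W hW
  have : s = s' := by
    ext a
    rw [h1, h3]
  rw [this]
  exact h2

end Ultra

end CModel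

end Pool.Agent.helper57.RC
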