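import Mathlib
import Pool.Agent.helper57.RC.Filter
import Pool.Agent.helper57.Fc.SetFm

set_option autoImplicit false

/-!
# The space is not realcompact
-/

open FirstOrder FirstOrder.Language

namespace Pool.Agent.helper57.RC

open Pool.Agent.helper57.Fc Pool.Agent.helper57.Fc.Sem

/-- The rational number `2` is below the value of the function `0` at `1`. -/
def fTh : Fm 3 := ∃' (fApp (up 0) (up 1) nw ⊓ fMem (up 2) nw)

theorem sat_fTh {M : Type} {E : M → M → Prop} {f x r : M} :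
    Sat E fTh ![f, x, r] ↔ ∃ y, App E f x y ∧ E r y := by
  unfold fTh
  rw [sat_ex]
  simp only [sat_and, sat_app, sat_mem, sn_up, sn_nw]
  exact Iff.rfl

namespace CModel

variable {C : CModel}

theorem sat_fTh_iff {f : C.M} (hf : Fun C.E f C.X C.R) {s : FS} (hs : s.Nonempty) (n : ℕ) :
    Sat C.E fTh ![f, C.pt s, C.nv n] ↔ (ratE n : ℝ) < C.fR f s := by
  have hn : C.nv n = C.qv (ratE n) := by
    unfold qv
    rw [Equiv.symm_apply_apply]
  rw [sat_fTh, hn]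
  obtain ⟨A, hA, h1, h2⟩ := fR_spec hf hs
  constructor
  · rintro ⟨y, h3, h4⟩
    rw [hf.2.2 _ _ _ h3 h1, C.mem_cs_iff hA, h2] at h4
    exact h4
  · intro h
    exact ⟨A, h1, (C.mem_cs_iff hA).2 (by rw [h2]; exact h)⟩

/-- A continuous function does not change when a generic point from a late level is added. -/
theorem exists_insert {f : C.M} (hf : Cont C.E C.X C.T C.R C.L f) : ∃ N, ∀ (s : FS) (a : ℕ × ℕ),
    s.Nonempty → N ≤ a.1 → a ∉ s → C.fR f (insert a s) = C.fR f s := by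
  obtain ⟨N, hN⟩ := C.sym f
  have hL := (cont_iff hf.1).1 hf
  refine ⟨N, fun s a hs ha has => ?_⟩
  have hins : (insert a s).Nonempty := Finset.insert_nonempty a s
  rcases lt_trichotomy (C.fR f (insert a s)) (C.fR f s) with h | h | h
  · obtain ⟨r, h1, h2⟩ := exists_rat_btwn h
    obtain ⟨n, rfl⟩ := ratE.surjective r
    obtain ⟨t, ht, ht'⟩ := hL s hs (C.fR f s - ratE n) (by linarith)
    have h3 := hN fTh s t a n ha has hs ht (fun u hsu hut => by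
      rw [sat_fTh_iff hf.1 (hs.mono hsu)]
      have h4 := (abs_lt.1 (ht' u ⟨hsu, hut⟩)).1
      linarith)
    rw [sat_fTh_iff hf.1 hins] at h3
    linarith
  · exact h
  · obtain ⟨r, h1, h2⟩ := exists_rat_btwn h
    obtain ⟨n, rfl⟩ := ratE.surjective r
    obtain ⟨t, ht, ht'⟩ := hL s hs (ratE n - C.fR f s) (by linarith)
    have h3 := hN (∼fTh) s t a n ha has hs ht (fun u hsu hut => by
      rw [sat_not, sat_fTh_iff hf.1 (hs.mono hsu)]
      have h4 := (abs_lt.1 (ht' u ⟨hsu, hut⟩)).2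
      linarith)
    rw [sat_not, sat_fTh_iff hf.1 hins] at h3
    exact absurd h2 h3

/-- Every continuous function has a limit at the empty set. -/
theorem exists_lim {f : C.M} (hf : Cont C.E C.X C.T C.R C.L f) : ∃ c : ℝ,
    (∃ A, C.E A C.R ∧ C.val A = c) ∧ ∀ ε > 0, ∃ t : FS, ∀ s : FS, s.Nonempty → Disjoint s t →
      |C.fR f s - c| < ε := by
  obtain ⟨N, hN⟩ := exists_insert hf
  have he : ({(N, 0)} : FS).Nonempty := Finset.singleton_nonempty _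
  refine ⟨C.fR f {(N, 0)}, ?_, fun ε hε => ?_⟩
  · obtain ⟨A, hA, -, h⟩ := fR_spec hf.1 he
    exact ⟨A, hA, h⟩
  · obtain ⟨t, ht, ht'⟩ := (cont_iff hf.1).1 hf _ he ε hε
    rw [Finset.disjoint_singleton_left] at ht
    refine ⟨t, fun s hs hst => ?_⟩
    by_cases h : ((N, 0) : ℕ × ℕ) ∈ s
    · exact ht' s ⟨Finset.singleton_subset_iff.2 h, hst⟩
    · rw [← hN s (N, 0) hs le_rfl h]
      refine ht' _ ⟨Finset.singleton_subset_iff.2 (Finset.mem_insert_self _ _), ?_⟩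
      rw [Finset.disjoint_insert_left]
      exact ⟨ht, hst⟩

theorem exists_far (t : FS) : ∃ s : FS, s.Nonempty ∧ Disjoint s t := by
  obtain ⟨a, ha⟩ := Infinite.exists_notMem_finset t
  exact ⟨{a}, Finset.singleton_nonempty a, by simpa using ha⟩

/-- `X` is not realcompact. -/
theorem not_realCompact : ¬ RealCompact C.E C.X C.T C.R C.L := by
  rintro ⟨J, P, TP, K, h, ⟨hP, hTP, hproj, hmin⟩, hKP, ⟨O, hO, hO'⟩, hh, hinj, hsurj, hcont, hopen⟩
  -- the coordinate functions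
  have hval : ∀ s : FS, s.Nonempty → ∃ g, C.E g K ∧ App C.E h (C.pt s) g ∧ Fun C.E g J C.R := by
    intro s hs
    obtain ⟨g, hg, h1⟩ := hh.2.1 _ (C.pt_mem_X hs)
    exact ⟨g, hg, h1, (hP g).1 (hKP g hg)⟩
  have hcoord : ∀ j, C.E j J → ∃ f, Cont C.E C.X C.T C.R C.L f ∧
      ∀ x y, App C.E f x y ↔ C.E x C.X ∧ C.E y C.R ∧ ∃ g, App C.E h x g ∧ App C.E g j y := by
    intro j hj
    obtain ⟨f, hf, hf'⟩ := C.zf.exists_fun C.X C.R
      (R := fun x y => ∃ g, App C.E h x g ∧ App C.E g j y) (by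
        unfold App OPair UPair
        (repeat' (first | exact Tm.var _ | exact Tm.const _ | exact Tm.ren (by assumption) _ | assumption | apply Dfn.all | apply Dfn.ex | apply Dfn.and | apply Dfn.or | apply Dfn.iff | apply Dfn.not | apply Dfn.imp | apply Dfn.mem | apply Dfn.eq))) (fun x hx => by
        obtain ⟨s, hs, rfl⟩ := (C.X_mem x).1 hx
        obtain ⟨g, -, h1, h2⟩ := hval s hs
        obtain ⟨y, hy, h3⟩ := h2.2.1 j hj
        exact ⟨y, hy, g, h1, h3⟩) (fun x hx y y' _ _ h1 h2 => by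
        obtain ⟨g, h3, h4⟩ := h1
        obtain ⟨g', h5, h6⟩ := h2
        have := hh.2.2 _ _ _ h3 h5
        subst this
        have hg := (hP g).1 (hKP g (Fun.dom C.zf hh h3).2)
        exact hg.2.2 _ _ _ h4 h6)
    refine ⟨f, ⟨hf, fun a b ha hb => ?_⟩, hf'⟩
    obtain ⟨u, hu, hu'⟩ := hproj j a b hj ha hb
    obtain ⟨v, hv, hv'⟩ := hcont u hu
    refine ⟨v, hv, fun x => ?_⟩
    rw [hv']
    constructor
    · rintro ⟨g, h1, h2⟩
      obtain ⟨-, y, h3, h4, h5⟩ := (hu' g).1 h2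
      have hx := (Fun.dom C.zf hh h1).1
      exact ⟨hx, y, (hf' x y).2 ⟨hx, (C.L_app.1 h4).2.1, g, h1, h3⟩, h4, h5⟩
    · rintro ⟨hx, y, h1, h2, h3⟩
      obtain ⟨-, -, g, h4, h5⟩ := (hf' x y).1 h1
      exact ⟨g, h4, (hu' g).2 ⟨hKP g (Fun.dom C.zf hh h4).2, y, h5, h2, h3⟩⟩
  -- the limit point
  let Lm : C.M → C.M → Prop := fun j c => ∀ a b, App C.E C.L a c → App C.E C.L c b →
    ∃ u, C.E u C.NB ∧ ∀ x, C.E x u → ∃ g y, App C.E h x g ∧ App C.E g j y ∧ App C.E C.L a y ∧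
      App C.E C.L y b
  have hLm : ∀ j, C.E j J → ∃ c, C.E c C.R ∧ Lm j c := by
    intro j hj
    obtain ⟨f, hf, hf'⟩ := hcoord j hj
    obtain ⟨c, ⟨A, hA, rfl⟩, hlim⟩ := exists_lim hf
    refine ⟨A, hA, fun a b haA hAb => ?_⟩
    have ha := (C.L_app.1 haA).1
    have hb := (C.L_app.1 hAb).2.1
    rw [C.L_iff ha hA] at haA
    rw [C.L_iff hA hb] at hAb
    obtain ⟨t, ht⟩ := hlim (min (C.val A - C.val a) (C.val b - C.val A))
      (lt_min (by linarith) (by linarith))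
    refine ⟨C.U ∅ t, (C.NB_mem _).2 ⟨t, rfl⟩, fun x hx => ?_⟩
    obtain ⟨s, hs, -, hst, rfl⟩ := (C.U_mem _ _ _).1 hx
    obtain ⟨y, hy, h1, h2⟩ := fR_spec hf.1 hs
    obtain ⟨-, -, g, h3, h4⟩ := (hf' _ _).1 h1
    have h5 := ht s hs hst
    rw [lt_min_iff, abs_lt, abs_lt, ← h2] at h5
    refine ⟨g, y, h3, h4, (C.L_iff ha hy).2 (by linarith [h5.1.1]),
      (C.L_iff hy hb).2 (by linarith [h5.2.2])⟩
  have hNB : ∀ u v, C.E u C.NB → C.E v C.NB → ∃ x, C.E x u ∧ C.E x v := by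
    intro u v hu hv
    obtain ⟨t, rfl⟩ := (C.NB_mem _).1 hu
    obtain ⟨t', rfl⟩ := (C.NB_mem _).1 hv
    obtain ⟨s, hs, h1⟩ := exists_far (t ∪ t')
    rw [Finset.disjoint_union_right] at h1
    exact ⟨C.pt s, (C.pt_mem_U hs).2 ⟨Finset.empty_subset s, h1.1⟩,
      (C.pt_mem_U hs).2 ⟨Finset.empty_subset s, h1.2⟩⟩
  have hLu : ∀ j c c', C.E c C.R → C.E c' C.R → Lm j c → Lm j c' → ¬ C.val c < C.val c' := by
    intro j c c' hc hc' h1 h2 hlt
    obtain ⟨r, hr1, hr2⟩ := exists_rat_btwn hlt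
    have hqr := C.qc_mem r
    obtain ⟨-, -, -, -, -, hend, -⟩ := C.realLine
    obtain ⟨a, ha⟩ := (hend c hc).1
    obtain ⟨b, hb⟩ := (hend c' hc').2
    obtain ⟨u, hu, h3⟩ := h1 a (C.qc r) ha ((C.L_iff hc hqr).2 (by rw [C.val_qc]; exact hr1))
    obtain ⟨v, hv, h4⟩ := h2 (C.qc r) b ((C.L_iff hqr hc').2 (by rw [C.val_qc]; exact hr2)) hb
    obtain ⟨x, hx1, hx2⟩ := hNB u v hu hv
    obtain ⟨g, y, h5, h6, -, h7⟩ := h3 x hx1
    obtain ⟨g', y', h5', h6', h7', -⟩ := h4 x hx2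
    have := hh.2.2 _ _ _ h5 h5'
    subst this
    have hg := (hP g).1 (hKP g (Fun.dom C.zf hh h5).2)
    have := hg.2.2 _ _ _ h6 h6'
    subst this
    have hy := (C.L_app.1 h7).1
    rw [C.L_iff hy hqr] at h7
    rw [C.L_iff hqr hy] at h7'
    linarith
  obtain ⟨g₀, hg₀, hg₀'⟩ := C.zf.exists_fun J C.R (R := Lm) (by
      simp only [Lm]
      unfold App OPair UPair
      (repeat' (first | exact Tm.var _ | exact Tm.const _ | exact Tm.ren (by assumption) _ | assumption | apply Dfn.all | apply Dfn.ex | apply Dfn.and | apply Dfn.or | apply Dfn.iff | apply Dfn.not | apply Dfn.imp | apply Dfn.mem | apply Dfn.eq))) hLm (fun j _ c c' hc hc' h1 h2 => by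
      refine C.val_inj hc hc' (le_antisymm ?_ ?_)
      · exact not_lt.1 (hLu j c' c hc' hc h2 h1)
      · exact not_lt.1 (hLu j c c' hc hc' h1 h2))
  have hg₀P : C.E g₀ P := (hP g₀).2 hg₀
  -- neighbourhoods of the limit point
  have hnbhd : ∀ v, C.E v TP → C.E g₀ v → ∃ u, C.E u C.NB ∧ ∀ x, C.E x u →
      ∃ g, App C.E h x g ∧ C.E g v := by
    obtain ⟨T', hT'⟩ := C.zf.sp (P := fun v => C.E g₀ v → ∃ u, C.E u C.NB ∧ ∀ x, C.E x u →
      ∃ g, App C.E h x g ∧ C.E g v) (by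
        unfold App OPair UPair
        (repeat' (first | exact Tm.var _ | exact Tm.const _ | exact Tm.ren (by assumption) _ | assumption | apply Dfn.all | apply Dfn.ex | apply Dfn.and | apply Dfn.or | apply Dfn.iff | apply Dfn.not | apply Dfn.imp | apply Dfn.mem | apply Dfn.eq))) TP
    have hsub := hmin T' ?_ ?_
    · intro v hv
      exact ((hT' v).1 (hsub v hv)).2
    · refine ⟨fun v hv => hTP.1 v ((hT' v).1 hv).1, (hT' P).2 ⟨hTP.2.1, fun _ => ?_⟩,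
        fun u v w hu hv hw => (hT' w).2 ⟨?_, fun hw0 => ?_⟩,
        fun A w hA hw => (hT' w).2 ⟨?_, fun hw0 => ?_⟩⟩
      · refine ⟨C.U ∅ ∅, (C.NB_mem _).2 ⟨∅, rfl⟩, fun x hx => ?_⟩
        obtain ⟨s, hs, -, -, rfl⟩ := (C.U_mem _ _ _).1 hx
        obtain ⟨g, hg, h1, -⟩ := hval s hs
        exact ⟨g, h1, hKP g hg⟩
      · exact hTP.2.2.1 u v w ((hT' u).1 hu).1 ((hT' v).1 hv).1 hw
      · obtain ⟨h1, h2⟩ := (hw g₀).1 hw0
        obtain ⟨u', hu', h3⟩ := ((hT' u).1 hu).2 h1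
        obtain ⟨v', hv', h4⟩ := ((hT' v).1 hv).2 h2
        obtain ⟨t, rfl⟩ := (C.NB_mem _).1 hu'
        obtain ⟨t', rfl⟩ := (C.NB_mem _).1 hv'
        refine ⟨C.U ∅ (t ∪ t'), (C.NB_mem _).2 ⟨_, rfl⟩, fun x hx => ?_⟩
        obtain ⟨s, hs, -, hst, rfl⟩ := (C.U_mem _ _ _).1 hx
        rw [Finset.disjoint_union_right] at hst
        obtain ⟨g, h5, h6⟩ := h3 _ ((C.pt_mem_U hs).2 ⟨Finset.empty_subset s, hst.1⟩)
        obtain ⟨g', h5', h6'⟩ := h4 _ ((C.pt_mem_U hs).2 ⟨Finset.empty_subset s, hst.2⟩)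
        have := hh.2.2 _ _ _ h5 h5'
        subst this
        exact ⟨g, h5, (hw g).2 ⟨h6, h6'⟩⟩
      · exact hTP.2.2.2 A w (fun u hu => ((hT' u).1 (hA u hu)).1) hw
      · obtain ⟨u, hu, h1⟩ := (hw g₀).1 hw0
        obtain ⟨u', hu', h3⟩ := ((hT' u).1 (hA u hu)).2 h1
        refine ⟨u', hu', fun x hx => ?_⟩
        obtain ⟨g, h5, h6⟩ := h3 x hx
        exact ⟨g, h5, (hw g).2 ⟨u, hu, h6⟩⟩
    · intro j a b hj ha hb
      obtain ⟨u, hu, hu'⟩ := hproj j a b hj ha hb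
      refine ⟨u, (hT' u).2 ⟨hu, fun h0 => ?_⟩, hu'⟩
      obtain ⟨-, c, h1, h2, h3⟩ := (hu' g₀).1 h0
      obtain ⟨-, -, h4⟩ := (hg₀' j c).1 h1
      obtain ⟨u', hu1, h5⟩ := h4 a b h2 h3
      refine ⟨u', hu1, fun x hx => ?_⟩
      obtain ⟨g, y, h6, h7, h8, h9⟩ := h5 x hx
      exact ⟨g, h6, (hu' g).2 ⟨hKP g (Fun.dom C.zf hh h6).2, y, h7, h8, h9⟩⟩
  -- the limit point belongs to the closed set
  have hg₀K : C.E g₀ K := by
    by_contra hcon
    obtain ⟨u, hu, h1⟩ := hnbhd O hO ((hO' g₀).2 ⟨hg₀P, hcon⟩)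
    obtain ⟨t, rfl⟩ := (C.NB_mem _).1 hu
    obtain ⟨s, hs, hst⟩ := exists_far t
    obtain ⟨g, h2, h3⟩ := h1 _ ((C.pt_mem_U hs).2 ⟨Finset.empty_subset s, hst⟩)
    exact ((hO' g).1 h3).2 (Fun.dom C.zf hh h2).2
  obtain ⟨x₀, hx₀, h1⟩ := hsurj g₀ hg₀K
  obtain ⟨s₀, hs₀, rfl⟩ := (C.X_mem x₀).1 hx₀
  obtain ⟨a, ha⟩ := hs₀
  have hU : C.E (C.U {a} ∅) C.T := by
    refine C.T_iff.2 ⟨fun x hx => ?_, fun s hs h2 => ⟨∅, Finset.disjoint_empty_right s,
      fun v hv => ?_⟩⟩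
    · obtain ⟨u, hu, -, -, rfl⟩ := (C.U_mem _ _ _).1 hx
      exact C.pt_mem_X hu
    · rw [C.pt_mem_U hs] at h2
      rw [C.pt_mem_U (hs.mono hv.1)]
      exact ⟨h2.1.trans hv.1, Finset.disjoint_empty_right v⟩
  obtain ⟨v, hv, hv'⟩ := hopen _ hU
  have h2 : C.E g₀ v := (hv' _ _ h1).1 ((C.pt_mem_U ⟨a, ha⟩).2
    ⟨Finset.singleton_subset_iff.2 ha, Finset.disjoint_empty_right _⟩)
  obtain ⟨u, hu, h3⟩ := hnbhd v hv h2
  obtain ⟨t, rfl⟩ := (C.NB_mem _).1 hu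
  obtain ⟨b, hb⟩ := Infinite.exists_notMem_finset (insert a t)
  rw [Finset.mem_insert, not_or] at hb
  obtain ⟨g, h4, h5⟩ := h3 (C.pt {b}) ((C.pt_mem_U (Finset.singleton_nonempty b)).2
    ⟨Finset.empty_subset _, by simpa using hb.2⟩)
  have h6 := (hv' _ _ h4).2 h5
  rw [C.pt_mem_U (Finset.singleton_nonempty b)] at h6
  simp only [Finset.singleton_subset_iff, Finset.mem_singleton] at h6
  exact hb.1 h6.1.symm

end CModel

end Pool.Agent.helper57.RC
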