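import Mathlib
import Pool.Agent.helper57.RC.NotRC
import Pool.Agent.helper57.Fc.Symm
import Pool.Agent.helper57.Fc.Pairs

set_option autoImplicit false

/-!
# The symmetric Cohen model: the poset, the group, and the names
-/

open FirstOrder FirstOrder.Language

namespace Pool.Agent.helper57.RC

open Pool.Agent.helper57.Fc

/-- The indices of the Cohen reals. -/
abbrev Ix : Type := ℕ × ℕ

/-- Conditions: finite consistent sets of literals `(a, l, b)`, where `b = true` means that `l`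
belongs to the Cohen real `x_a`, and `b = false` that it does not. -/
def Cnd : Type := {p : Finset (Ix × ℕ × Bool) // ∀ a l, ¬ ((a, l, true) ∈ p ∧ (a, l, false) ∈ p)}

instance : Preorder Cnd where
  le q p := p.1 ⊆ q.1
  le_refl p := Finset.Subset.refl p.1
  le_trans _ _ _ h h' := Finset.Subset.trans h' h

instance : OrderTop Cnd where
  top := ⟨∅, by simp⟩
  le_top p := Finset.empty_subset p.1

instance : Countable Cnd := by
  unfold Cnd
  infer_instance

theorem le_def {p q : Cnd} : q ≤ p ↔ p.1 ⊆ q.1 := Iff.rfl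

/-- The group: the permutations of the indices which preserve the first coordinate. -/
def Gp : Subgroup (Equiv.Perm Ix) where
  carrier := {π | ∀ x, (π x).1 = x.1}
  mul_mem' := by
    intro a b ha hb x
    rw [Equiv.Perm.mul_apply, ha, hb]
  one_mem' := fun x => rfl
  inv_mem' := by
    intro a ha x
    have h := ha (a⁻¹ x)
    have h1 : a (a⁻¹ x) = x := a.apply_symm_apply x
    rw [h1] at h
    exact h.symm

/-- The action of a permutation on literals. -/
def litE (π : Equiv.Perm Ix) : (Ix × ℕ × Bool) ≃ (Ix × ℕ × Bool) :=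
  Equiv.prodCongr π (Equiv.refl _)

/-- The action of a permutation on conditions. -/
def actF (π : Equiv.Perm Ix) (p : Cnd) : Cnd :=
  ⟨p.1.map (litE π).toEmbedding, fun a l h => by
    rw [Finset.mem_map_equiv, Finset.mem_map_equiv] at h
    exact p.2 _ _ h⟩

theorem mem_actF {π : Equiv.Perm Ix} {p : Cnd} {a : Ix} {l : ℕ} {b : Bool} :
    (a, l, b) ∈ (actF π p).1 ↔ (π.symm a, l, b) ∈ p.1 := by
  change (a, l, b) ∈ p.1.map (litE π).toEmbedding ↔ _
  rw [Finset.mem_map_equiv]
  exact Iff.rfl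

theorem mem_actF' {π : Equiv.Perm Ix} {p : Cnd} {a : Ix} {l : ℕ} {b : Bool} :
    (π a, l, b) ∈ (actF π p).1 ↔ (a, l, b) ∈ p.1 := by
  rw [mem_actF, Equiv.symm_apply_apply]

theorem Cnd.ext {p q : Cnd} (h : ∀ a l b, (a, l, b) ∈ p.1 ↔ (a, l, b) ∈ q.1) : p = q :=
  Subtype.ext (Finset.ext fun ⟨a, l, b⟩ => h a l b)

/-- The action of the group. -/
def act : Gp →* (Cnd ≃o Cnd) := MonoidHom.mk' (fun g =>
  { toFun := actF g.1
    invFun := actF g.1.symm
    left_inv := fun p => Cnd.ext fun a l b => by rw [mem_actF, mem_actF, Equiv.symm_symm,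
      Equiv.symm_apply_apply]
    right_inv := fun p => Cnd.ext fun a l b => by rw [mem_actF, mem_actF, Equiv.symm_symm,
      Equiv.apply_symm_apply]
    map_rel_iff' := by
      intro p q
      exact Finset.map_subset_map })
  (fun g h => DFunLike.ext _ _ fun p => Cnd.ext fun a l b => by
      change (a, l, b) ∈ (actF (g.1 * h.1) p).1 ↔ (a, l, b) ∈ (actF g.1 (actF h.1 p)).1
      rw [mem_actF, mem_actF, mem_actF]
      exact Iff.rfl)

theorem mem_act {g : Gp} {p : Cnd} {a : Ix} {l : ℕ} {b : Bool} :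
    (g.1 a, l, b) ∈ (act g p).1 ↔ (a, l, b) ∈ p.1 := mem_actF'

/-- The filter base: the pointwise stabilizers of the indices with first coordinate below `N`. -/
def HH (N : ℕ) : Set Gp := {g | ∀ x : Ix, x.1 < N → g.1 x = x}

theorem conj_HH : Conj HH := by
  intro g N
  refine ⟨N, fun h hh x hx => ?_⟩
  change (g⁻¹.1 : Equiv.Perm Ix) (h.1 (g.1 x)) = x
  have h1 : (g.1 x).1 < N := by
    have : (g.1 x).1 = x.1 := g.2 x
    rw [this]
    exact hx
  rw [hh _ h1]
  exact g.1.symm_apply_apply x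

theorem anti_HH (M N : ℕ) (h : M ≤ N) : HH N ⊆ HH M := fun _ hg x hx => hg x (hx.trans_le h)

/-- The class of hereditarily symmetric names. -/
abbrev SN : Set (Name Cnd) := HSN act HH

theorem nameUniv_SN : NameUniv SN := nameUniv_HSN conj_HH anti_HH

/-! ### Names -/

section Nat

variable {P : Type} [Preorder P] [OrderTop P] {p : P}

theorem not_nat_mem_self (n : ℕ) : ∀ p : P, ¬ ForcesMem (nat P n) (nat P n) p := by
  induction n using Nat.strong_induction_on with
  | _ n ih =>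
    intro p h
    obtain ⟨r, _, k, hk, h1⟩ := mem_nat.1 h p le_rfl
    exact ih k hk r (((mem_nat.2 fun q _ => ⟨q, le_rfl, k, hk, ForcesEq.refl _ _⟩ :
      ForcesMem (nat P k) (nat P n) r)).congr_right h1)

theorem nat_eq_nat {i j : ℕ} : ForcesEq (nat P i) (nat P j) p ↔ i = j := by
  have key : ∀ i j : ℕ, i < j → ForcesMem (nat P i) (nat P j) p := fun i j h =>
    mem_nat.2 fun q _ => ⟨q, le_rfl, i, h, ForcesEq.refl _ _⟩
  constructor
  · intro h
    rcases lt_trichotomy i j with h1 | h1 | h1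
    · exact absurd ((key i j h1).congr_right h.symm) (not_nat_mem_self i p)
    · exact h1
    · exact absurd ((key j i h1).congr_right h) (not_nat_mem_self j p)
  · rintro rfl
    exact ForcesEq.refl _ _

end Nat

/-- The name of the Cohen real `x_a`. -/
def xN (a : Ix) : Name Cnd :=
  .mk {t : ℕ × Cnd // (a, t.1, true) ∈ t.2.1} (fun t => nat Cnd t.1.1) (fun t => t.1.2)

theorem am_xN (g : Gp) (a : Ix) (p : Cnd) : ForcesEq (am act g (xN a)) (xN (g.1 a)) p := by
  unfold xN
  rw [am_mk]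
  refine ⟨fun t q _ hqt => ?_, fun t q _ hqt => ?_⟩
  · exact ⟨q, le_rfl, ⟨(t.1.1, act g t.1.2), mem_act.2 t.2⟩, hqt, fixes_nat g _ q⟩
  · refine ⟨q, le_rfl, ⟨(t.1.1, act g⁻¹ t.1.2), ?_⟩, ?_, fixes_nat g _ q⟩
    · rw [← mem_act (g := g)]
      have : act g (act g⁻¹ t.1.2) = t.1.2 := by
        rw [map_inv]
        exact (act g).apply_symm_apply _
      rw [this]
      exact t.2
    · change q ≤ act g (act g⁻¹ t.1.2)
      have : act g (act g⁻¹ t.1.2) = t.1.2 := by
        rw [map_inv]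
        exact (act g).apply_symm_apply _
      rw [this]
      exact hqt

/-- Different Cohen reals are different. -/
theorem xN_ne {a b : Ix} (hab : a ≠ b) (p : Cnd) : ¬ ForcesEq (xN a) (xN b) p := by
  classical
  intro h
  obtain ⟨l, hl⟩ := Infinite.exists_notMem_finset (p.1.image fun t => t.2.1)
  have hl' : ∀ c x, (c, l, x) ∉ p.1 := fun c x hc => hl (Finset.mem_image_of_mem _ hc)
  let q : Cnd := ⟨p.1 ∪ {(a, l, true), (b, l, false)}, by
    intro c m hcm
    simp only [Finset.mem_union, Finset.mem_insert, Finset.mem_singleton, Prod.mk.injEq] at hcm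
    obtain ⟨h1, h2⟩ := hcm
    rcases h1 with h1 | h1 | h1
    · rcases h2 with h2 | h2 | h2
      · exact p.2 c m ⟨h1, h2⟩
      · simp at h2
      · rw [h2.2.1] at h1
        exact hl' _ _ h1
    · rcases h2 with h2 | h2 | h2
      · rw [h1.2.1] at h2
        exact hl' _ _ h2
      · simp at h2
      · exact hab (h1.1.symm.trans h2.1)
    · simp at h1⟩
  have hqp : q ≤ p := Finset.subset_union_left
  have hqa : ForcesMem (nat Cnd l) (xN a) q := by
    intro r hr
    exact ⟨r, le_rfl, ⟨(l, q), by simp [q]⟩, hr, ForcesEq.refl _ _⟩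
  have hqb := hqa.congr_right (h.mono hqp)
  obtain ⟨r, hr, ⟨⟨m, s⟩, hs⟩, hrs, heq⟩ := hqb q le_rfl
  have h1 : l = m := nat_eq_nat.1 heq
  subst h1
  have h2 : (b, l, true) ∈ r.1 := (le_def.1 (show r ≤ s from hrs)) hs
  have h3 : (b, l, false) ∈ r.1 := (le_def.1 hr) (by simp [q])
  exact r.2 b l ⟨h2, h3⟩

/-- The name of the finite set of the Cohen reals with indices in `s`. -/
def sN (s : Finset Ix) : Name Cnd := ck (fun a : {a // a ∈ s} => xN a.1)

/-- The action of the group on finite sets of indices. -/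
def gs (g : Gp) (s : Finset Ix) : Finset Ix := s.map g.1.toEmbedding

theorem mem_gs {g : Gp} {s : Finset Ix} {a : Ix} : g.1 a ∈ gs g s ↔ a ∈ s :=
  Finset.mem_map' _

theorem exists_of_mem_gs {g : Gp} {s : Finset Ix} {b : Ix} (h : b ∈ gs g s) :
    ∃ a ∈ s, g.1 a = b := Finset.mem_map.1 h

theorem gs_inv (g : Gp) (s : Finset Ix) : gs g (gs g⁻¹ s) = s := by
  ext a
  unfold gs
  rw [Finset.mem_map_equiv, Finset.mem_map_equiv]
  have : (g⁻¹.1 : Equiv.Perm Ix).symm (g.1.symm a) = a := by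
    change g.1 (g.1.symm a) = a
    exact g.1.apply_symm_apply a
  rw [this]

theorem gs_of_fix {g : Gp} {s : Finset Ix} (h : ∀ a ∈ s, g.1 a = a) : gs g s = s := by
  ext b
  constructor
  · intro hb
    obtain ⟨a, ha, rfl⟩ := exists_of_mem_gs hb
    rw [h a ha]
    exact ha
  · intro hb
    have := mem_gs (g := g).2 hb
    rw [h b hb] at this
    exact this

theorem gs_nonempty {g : Gp} {s : Finset Ix} (h : s.Nonempty) : (gs g s).Nonempty :=
  Finset.map_nonempty.2 h

theorem gs_subset {g : Gp} {s t : Finset Ix} (h : s ⊆ t) : gs g s ⊆ gs g t :=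
  Finset.map_subset_map.2 h

theorem gs_disjoint {g : Gp} {s t : Finset Ix} (h : Disjoint s t) : Disjoint (gs g s) (gs g t) :=
  (Finset.disjoint_map _).2 h

/-- The two families of names have the same values, up to the action of `g`. -/
theorem am_ck_eq {ι κ : Type} (g : Gp) {x : ι → Name Cnd} {y : κ → Name Cnd}
    (h1 : ∀ i, ∃ j, ∀ p, ForcesEq (am act g (x i)) (y j) p)
    (h2 : ∀ j, ∃ i, ∀ p, ForcesEq (am act g (x i)) (y j) p) (p : Cnd) :
    ForcesEq (am act g (ck x)) (ck y) p := by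
  refine (am_ck g x p).trans ⟨fun i q _ _ => ?_, fun j q _ _ => ?_⟩
  · obtain ⟨j, hj⟩ := h1 i
    exact ⟨q, le_rfl, j, le_top, hj q⟩
  · obtain ⟨i, hi⟩ := h2 j
    exact ⟨q, le_rfl, i, le_top, hi q⟩

theorem am_sN (g : Gp) (s : Finset Ix) (p : Cnd) : ForcesEq (am act g (sN s)) (sN (gs g s)) p := by
  refine am_ck_eq g (fun a => ⟨⟨g.1 a.1, mem_gs.2 a.2⟩, am_xN g a.1⟩) (fun b => ?_) p
  obtain ⟨a, ha, hab⟩ := exists_of_mem_gs b.2
  refine ⟨⟨a, ha⟩, fun q => ?_⟩
  have := am_xN g a q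
  rw [hab] at this
  exact this

/-- The name of the space `X`: the set of all nonempty finite sets of Cohen reals. -/
def XN : Name Cnd := ck (fun s : {s : Finset Ix // s.Nonempty} => sN s.1)

/-- The name of a basic open set. -/
def UN (s t : Finset Ix) : Name Cnd :=
  ck (fun u : {u : Finset Ix // u.Nonempty ∧ s ⊆ u ∧ Disjoint u t} => sN u.1)

theorem am_UN (g : Gp) (s t : Finset Ix) (p : Cnd) :
    ForcesEq (am act g (UN s t)) (UN (gs g s) (gs g t)) p := by
  refine am_ck_eq g (fun u => ⟨⟨gs g u.1, gs_nonempty u.2.1, gs_subset u.2.2.1,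
    gs_disjoint u.2.2.2⟩, am_sN g u.1⟩) (fun v => ?_) p
  have h1 : gs g (gs g⁻¹ v.1) = v.1 := gs_inv g v.1
  have hback : ∀ s, gs g⁻¹ (gs g s) = s := fun s => by
    have := gs_inv g⁻¹ s
    rw [inv_inv] at this
    exact this
  refine ⟨⟨gs g⁻¹ v.1, gs_nonempty v.2.1, ?_, ?_⟩, fun q => ?_⟩
  · have := gs_subset (g := g⁻¹) v.2.2.1
    rw [hback] at this
    exact this
  · have := gs_disjoint (g := g⁻¹) v.2.2.2
    rw [hback] at this
    exact this
  · have := am_sN g (gs g⁻¹ v.1) q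
    rw [h1] at this
    exact this

/-- The name of the base of the topology. -/
def BN : Name Cnd := ck (fun st : Finset Ix × Finset Ix => UN st.1 st.2)

/-- The name of the set of the traces of the neighbourhoods of the empty set. -/
def NBN : Name Cnd := ck (fun t : Finset Ix => UN ∅ t)

/-- The name of the set of all Cohen reals whose index has first coordinate at most `N`. -/
def DN (N : ℕ) : Name Cnd := ck (fun a : {a : Ix // a.1 ≤ N} => xN a.1)

/-- The name of an enumeration of this set. -/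
def eN (N : ℕ) : Name Cnd := ck (fun k : ℕ => opN (nat Cnd k) (xN (enum N k)))

/-- The name of the sequence of these sets. -/
def DSN : Name Cnd := ck (fun N : ℕ => opN (nat Cnd N) (DN N))

/-- The name of a relation on `ω` of the ground model. -/
def rN (r : ℕ → ℕ → Prop) : Name Cnd :=
  ck (fun k : {k : ℕ × ℕ // r k.1 k.2} => opN (nat Cnd k.1.1) (nat Cnd k.1.2))

/-! ### The names are hereditarily symmetric -/

theorem am_upN (g : Gp) (x y : Name Cnd) (p : Cnd) :
    ForcesEq (am act g (upN x y)) (upN (am act g x) (am act g y)) p := by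
  refine am_ck_eq g (fun b => ⟨b, fun q => ?_⟩) (fun b => ⟨b, fun q => ?_⟩) p
  · cases b <;> exact ForcesEq.refl _ _
  · cases b <;> exact ForcesEq.refl _ _

theorem am_opN (g : Gp) (x y : Name Cnd) (p : Cnd) :
    ForcesEq (am act g (opN x y)) (opN (am act g x) (am act g y)) p :=
  (am_upN g _ _ p).trans (upN_congr (am_upN g _ _ p) (am_upN g _ _ p))

theorem fixes_opN {g : Gp} {x y : Name Cnd} (hx : Fixes act g x) (hy : Fixes act g y) :
    Fixes act g (opN x y) := fun p => (am_opN g x y p).trans (opN_congr (hx p) (hy p))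

theorem hs_upN {x y : Name Cnd} (hx : x ∈ SN) (hy : y ∈ SN) : upN x y ∈ SN := by
  obtain ⟨N, hN⟩ := HS.symm hx
  obtain ⟨N', hN'⟩ := HS.symm hy
  refine hs_ck ⟨max N N', fun g hg p => ?_⟩ (fun b => by cases b <;> assumption)
  exact (am_upN g x y p).trans (upN_congr (hN g (anti_HH _ _ (le_max_left _ _) hg) p)
    (hN' g (anti_HH _ _ (le_max_right _ _) hg) p))

theorem hs_opN {x y : Name Cnd} (hx : x ∈ SN) (hy : y ∈ SN) : opN x y ∈ SN :=
  hs_upN (hs_upN hx hx) (hs_upN hx hy)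

theorem fixes_xN {N : ℕ} {g : Gp} (hg : g ∈ HH N) {a : Ix} (ha : a.1 < N) :
    Fixes act g (xN a) := by
  intro p
  have := am_xN g a p
  rw [hg a ha] at this
  exact this

theorem hs_xN (a : Ix) : xN a ∈ SN :=
  ⟨⟨a.1 + 1, fun _ hg => fixes_xN hg (Nat.lt_succ_self _)⟩, fun _ => hs_nat _⟩

theorem exists_bound (s : Finset Ix) : ∃ N, ∀ g ∈ HH N, gs g s = s := by
  refine ⟨s.sup (fun a => a.1 + 1), fun g hg => gs_of_fix fun a ha => hg a ?_⟩
  exact Nat.lt_of_succ_le (Finset.le_sup (f := fun a : Ix => a.1 + 1) ha)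

theorem hs_sN (s : Finset Ix) : sN s ∈ SN := by
  obtain ⟨N, hN⟩ := exists_bound s
  refine hs_ck ⟨N, fun g hg p => ?_⟩ (fun a => hs_xN a.1)
  have := am_sN g s p
  rw [hN g hg] at this
  exact this

theorem hs_XN : XN ∈ SN := by
  refine hs_ck ⟨0, fun g _ => fixes_ck (fun s => ⟨⟨gs g s.1, gs_nonempty s.2⟩, am_sN g s.1⟩)
    (fun s => ⟨⟨gs g⁻¹ s.1, gs_nonempty s.2⟩, fun q => ?_⟩)⟩ (fun s => hs_sN s.1)
  have := am_sN g (gs g⁻¹ s.1) q
  rw [gs_inv] at this
  exact this

theorem hs_UN (s t : Finset Ix) : UN s t ∈ SN := by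
  obtain ⟨N, hN⟩ := exists_bound s
  obtain ⟨N', hN'⟩ := exists_bound t
  refine hs_ck ⟨max N N', fun g hg p => ?_⟩ (fun u => hs_sN u.1)
  have := am_UN g s t p
  rw [hN g (anti_HH _ _ (le_max_left _ _) hg), hN' g (anti_HH _ _ (le_max_right _ _) hg)] at this
  exact this

theorem hs_BN : BN ∈ SN := by
  refine hs_ck ⟨0, fun g _ => fixes_ck (fun st => ⟨(gs g st.1, gs g st.2), am_UN g st.1 st.2⟩)
    (fun st => ⟨(gs g⁻¹ st.1, gs g⁻¹ st.2), fun q => ?_⟩)⟩ (fun st => hs_UN st.1 st.2)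
  have := am_UN g (gs g⁻¹ st.1) (gs g⁻¹ st.2) q
  rw [gs_inv, gs_inv] at this
  exact this

theorem gs_empty (g : Gp) : gs g ∅ = ∅ := Finset.map_empty _

theorem hs_NBN : NBN ∈ SN := by
  refine hs_ck ⟨0, fun g _ => fixes_ck (fun t => ⟨gs g t, fun q => ?_⟩)
    (fun t => ⟨gs g⁻¹ t, fun q => ?_⟩)⟩ (fun t => hs_UN ∅ t)
  · have := am_UN g ∅ t q
    rw [gs_empty] at this
    exact this
  · have := am_UN g ∅ (gs g⁻¹ t) q
    rw [gs_empty, gs_inv] at this
    exact this

theorem fixes_DN (g : Gp) (N : ℕ) : Fixes act g (DN N) := by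
  refine fixes_ck (fun a => ⟨⟨g.1 a.1, by
    have : (g.1 a.1).1 = a.1.1 := g.2 a.1
    rw [this]; exact a.2⟩, am_xN g a.1⟩) (fun a => ⟨⟨g⁻¹.1 a.1, by
    have : (g⁻¹.1 a.1).1 = a.1.1 := g⁻¹.2 a.1
    rw [this]; exact a.2⟩, fun q => ?_⟩)
  have := am_xN g (g⁻¹.1 a.1) q
  have h2 : g.1 (g⁻¹.1 a.1) = a.1 := g.1.apply_symm_apply a.1
  rw [h2] at this
  exact this

theorem hs_DN (N : ℕ) : DN N ∈ SN := hs_ck ⟨0, fun g _ => fixes_DN g N⟩ (fun a => hs_xN a.1)

theorem hs_eN (N : ℕ) : eN N ∈ SN := by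
  refine hs_ck ⟨N + 1, fun g hg => fixes_ck' fun k => fixes_opN (fixes_nat g k)
    (fixes_xN hg ?_)⟩ (fun k => hs_opN (hs_nat k) (hs_xN _))
  exact Nat.lt_succ_of_le (enum_le N k)

theorem hs_DSN : DSN ∈ SN :=
  hs_ck ⟨0, fun g _ => fixes_ck' fun N => fixes_opN (fixes_nat g N) (fixes_DN g N)⟩
    (fun N => hs_opN (hs_nat N) (hs_DN N))

theorem hs_rN (r : ℕ → ℕ → Prop) : rN r ∈ SN :=
  hs_ck ⟨0, fun g _ => fixes_ck' fun _ => fixes_opN (fixes_nat g _) (fixes_nat g _)⟩
    (fun _ => hs_opN (hs_nat _) (hs_nat _))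

/-! ### The names are hereditarily countable -/

theorem hc_ck {ι : Type} [h : Countable ι] {x : ι → Name Cnd} (hx : ∀ i, HC (x i)) :
    HC (ck x) := ⟨h, hx⟩

theorem hc_nat (n : ℕ) : HC (nat Cnd n) := by
  induction n using Nat.strong_induction_on with
  | _ n ih =>
    rw [nat_def]
    exact hc_ck fun i => ih i.1 i.2

theorem hc_xN (a : Ix) : HC (xN a) := by
  refine ⟨?_, fun t => hc_nat _⟩
  infer_instance

theorem hc_upN {x y : Name Cnd} (hx : HC x) (hy : HC y) : HC (upN x y) :=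
  hc_ck fun b => by cases b <;> assumption

theorem hc_opN {x y : Name Cnd} (hx : HC x) (hy : HC y) : HC (opN x y) :=
  hc_upN (hc_upN hx hx) (hc_upN hx hy)

theorem hc_sN (s : Finset Ix) : HC (sN s) := hc_ck fun a => hc_xN a.1

theorem hc_UN (s t : Finset Ix) : HC (UN s t) := hc_ck fun u => hc_sN u.1

end Pool.Agent.helper57.RC
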