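import Mathlib
import Pool.Agent.helper57.RC.Cohen

set_option autoImplicit false

/-!
# The symmetric Cohen model
-/

open FirstOrder FirstOrder.Language

namespace Pool.Agent.helper57.RC

open Pool.Agent.helper57.Fc Pool.Agent.helper57.Fc.Sem

/-- The names whose values are used. -/
def Top0 : Set (Name Cnd) :=
  {XN, BN, NBN, om Cnd, DSN, rN (fun i j => ratE i < ratE j), rN (fun i j => ratE j = -ratE i),
    rN (fun i j => ratE j = 1 / ((i : ℚ) + 1))} ∪ Set.range eN ∪ Set.range sN ∪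
    Set.range (fun st : Finset Ix × Finset Ix => UN st.1 st.2)

theorem top0_countable : Top0.Countable := by
  refine ((Set.Countable.union ?_ (Set.countable_range _)).union (Set.countable_range _)).union
    (Set.countable_range _)
  exact Set.Finite.countable (by simp)

theorem hc_rN (r : ℕ → ℕ → Prop) : HC (rN r) := hc_ck fun _ => hc_opN (hc_nat _) (hc_nat _)

theorem hc_top0 {x : Name Cnd} (hx : x ∈ Top0) : HC x := by
  rcases hx with ((hx | ⟨N, rfl⟩) | ⟨s, rfl⟩) | ⟨st, rfl⟩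
  · simp only [Set.mem_insert_iff, Set.mem_singleton_iff] at hx
    rcases hx with rfl | rfl | rfl | rfl | rfl | rfl | rfl | rfl
    · exact hc_ck fun s => hc_sN s.1
    · exact hc_ck fun st => hc_UN _ _
    · exact hc_ck fun t => hc_UN _ _
    · exact hc_ck hc_nat
    · exact hc_ck fun N => hc_opN (hc_nat _) (hc_ck fun a => hc_xN a.1)
    · exact hc_rN _
    · exact hc_rN _
    · exact hc_rN _
  · exact hc_ck fun k => hc_opN (hc_nat _) (hc_xN _)
  · exact hc_sN s
  · exact hc_UN _ _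

theorem hs_top0 {x : Name Cnd} (hx : x ∈ Top0) : x ∈ SN := by
  rcases hx with ((hx | ⟨N, rfl⟩) | ⟨s, rfl⟩) | ⟨st, rfl⟩
  · simp only [Set.mem_insert_iff, Set.mem_singleton_iff] at hx
    rcases hx with rfl | rfl | rfl | rfl | rfl | rfl | rfl | rfl
    · exact hs_XN
    · exact hs_BN
    · exact hs_NBN
    · exact hs_om
    · exact hs_DSN
    · exact hs_rN _
    · exact hs_rN _
    · exact hs_rN _
  · exact hs_eN N
  · exact hs_sN s
  · exact hs_UN _ _

/-- The transitive closure. -/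
def Tc0 : Set (Name Cnd) := {z | ∃ x ∈ Top0, InTc z x}

theorem tc0_countable : Tc0.Countable := by
  have : Tc0 = ⋃ x ∈ Top0, {z | InTc z x} := by
    ext z
    simp [Tc0]
  rw [this]
  exact top0_countable.biUnion fun x hx => (hc_top0 hx).countable

theorem mem_tc0 {x : Name Cnd} (hx : x ∈ Top0) : x ∈ Tc0 := ⟨x, hx, InTc.refl _⟩

theorem tc0_el {x : Name Cnd} (hx : x ∈ Tc0) (i : x.Idx) : x.el i ∈ Tc0 := by
  obtain ⟨y, hy, h⟩ := hx
  exact ⟨y, hy, InTc.trans (InTc.step x i (InTc.refl _)) h⟩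

theorem hs_tc0 {x : Name Cnd} (hx : x ∈ Tc0) : x ∈ SN := by
  obtain ⟨y, hy, h⟩ := hx
  exact h.mem nameUniv_SN.trans (hs_top0 hy)

theorem exists_Y : ∃ Y : ℕ → Name Cnd, Set.range Y = Tc0 := by
  obtain ⟨Y, hY⟩ := tc0_countable.exists_eq_range ⟨XN, mem_tc0 (by simp [Top0])⟩
  exact ⟨Y, hY.symm⟩

noncomputable def Y : ℕ → Name Cnd := exists_Y.choose

theorem range_Y : Set.range Y = Tc0 := exists_Y.choose_spec

/-- The generic model. -/
noncomputable def GG : GenStd SN ⊤ Y :=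
  (exists_genStd nameUniv_SN.trans nameUniv_SN.om ⊤ Y (fun i => hs_tc0 (by
    rw [← range_Y]; exact ⟨i, rfl⟩))).some

theorem zfG : IsZF GG.E := GG.toGen.isZF nameUniv_SN

theorem in_tc0 {x : Name Cnd} (hx : x ∈ Tc0) : GG.In x := by
  rw [← range_Y] at hx
  obtain ⟨i, rfl⟩ := hx
  exact GG.inc i

/-- The value of a name. -/
noncomputable abbrev vl (x : Name Cnd) : GG.M := GG.val x

theorem mem_vl_ck {ι : Type} {x : ι → Name Cnd} (hx : ck x ∈ Tc0) {t : GG.M} :
    GG.E t (vl (ck x)) ↔ ∃ i, t = vl (x i) :=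
  GenStd.mem_ck_val (in_tc0 hx) (fun i => in_tc0 (tc0_el hx i))

theorem vl_eq {x y : Name Cnd} (hx : x ∈ Tc0) (hy : y ∈ Tc0) :
    vl x = vl y ↔ ∃ k, ForcesEq x y (GG.p k) := GenStd.val_eq (in_tc0 hx) (in_tc0 hy)

theorem upair_vl {x y : Name Cnd} (h : upN x y ∈ Tc0) : UPair GG.E (vl (upN x y)) (vl x) (vl y) := by
  intro t
  unfold upN at h ⊢
  rw [mem_vl_ck h]
  constructor
  · rintro ⟨b, hb⟩
    cases b with
    | true => exact Or.inl hb
    | false => exact Or.inr hb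
  · rintro (h | h)
    · exact ⟨true, h⟩
    · exact ⟨false, h⟩

theorem opair_vl {x y : Name Cnd} (h : opN x y ∈ Tc0) : OPair GG.E (vl (opN x y)) (vl x) (vl y) := by
  have h1 : upN x x ∈ Tc0 := tc0_el h (true : Bool)
  have h2 : upN x y ∈ Tc0 := tc0_el h (false : Bool)
  intro t
  rw [opN, upair_vl h t]
  constructor
  · rintro (rfl | rfl)
    · exact Or.inl (upair_vl h1)
    · exact Or.inr (upair_vl h2)
  · rintro (h3 | h3)
    · exact Or.inl (zfG.upair_uniq h3 (upair_vl h1))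
    · exact Or.inr (zfG.upair_uniq h3 (upair_vl h2))

theorem app_vl {ι : Type} {x y : ι → Name Cnd} (h : ck (fun i => opN (x i) (y i)) ∈ Tc0)
    {u v : GG.M} : App GG.E (vl (ck (fun i => opN (x i) (y i)))) u v ↔
      ∃ i, u = vl (x i) ∧ v = vl (y i) := by
  have h1 : ∀ i, opN (x i) (y i) ∈ Tc0 := fun i => tc0_el h i
  constructor
  · rintro ⟨z, hz, hz'⟩
    obtain ⟨i, rfl⟩ := (mem_vl_ck h).1 hz
    obtain ⟨h2, h3⟩ := zfG.opair_inj hz' (opair_vl (h1 i))
    exact ⟨i, h2, h3⟩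
  · rintro ⟨i, rfl, rfl⟩
    exact ⟨_, (mem_vl_ck h).2 ⟨i, rfl⟩, opair_vl (h1 i)⟩

theorem nat_tc0 (n : ℕ) : nat Cnd n ∈ Tc0 := tc0_el (x := om Cnd) (mem_tc0 (by simp [Top0])) n

theorem vl_nat_inj : Function.Injective (fun n => vl (nat Cnd n)) := by
  intro i j h
  obtain ⟨k, hk⟩ := (vl_eq (nat_tc0 i) (nat_tc0 j)).1 h
  exact nat_eq_nat.1 hk

theorem sN_tc0 (s : Finset Ix) : sN s ∈ Tc0 := mem_tc0 (by simp [Top0])

theorem xN_tc0 (a : Ix) : xN a ∈ Tc0 :=
  tc0_el (sN_tc0 {a}) (⟨a, Finset.mem_singleton_self a⟩ : {b // b ∈ ({a} : Finset Ix)})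

theorem UN_tc0 (s t : Finset Ix) : UN s t ∈ Tc0 :=
  mem_tc0 (Or.inr ⟨(s, t), rfl⟩)

theorem vl_xN_inj : Function.Injective (fun a => vl (xN a)) := by
  intro a b h
  by_contra hab
  obtain ⟨k, hk⟩ := (vl_eq (xN_tc0 a) (xN_tc0 b)).1 h
  exact xN_ne hab _ hk

theorem rel_tc0 {r : ℕ → ℕ → Prop} (h : rN r ∈ Tc0) (u v : GG.M) :
    App GG.E (vl (rN r)) u v ↔ ∃ i j, u = vl (nat Cnd i) ∧ v = vl (nat Cnd j) ∧ r i j := by
  unfold rN at h ⊢
  rw [app_vl h]
  constructor
  · rintro ⟨⟨⟨i, j⟩, hr⟩, h1, h2⟩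
    exact ⟨i, j, h1, h2, hr⟩
  · rintro ⟨i, j, h1, h2, hr⟩
    exact ⟨⟨(i, j), hr⟩, h1, h2⟩

theorem DN_tc0 (N : ℕ) : DN N ∈ Tc0 := by
  have h : DSN ∈ Tc0 := mem_tc0 (by simp [Top0])
  have h1 : opN (nat Cnd N) (DN N) ∈ Tc0 := tc0_el h N
  have h2 : upN (nat Cnd N) (DN N) ∈ Tc0 := tc0_el h1 (false : Bool)
  exact tc0_el h2 (false : Bool)

/-! ### Symmetry -/

/-- The transposition of two indices with the same first coordinate. -/
def swp (a b : Ix) (h : a.1 = b.1) : Gp := ⟨Equiv.swap a b, fun x => by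
  by_cases h1 : x = a
  · rw [h1, Equiv.swap_apply_left, h]
  · by_cases h2 : x = b
    · rw [h2, Equiv.swap_apply_right, h]
    · rw [Equiv.swap_apply_of_ne_of_ne h1 h2]⟩

/-- The union of `p` and its image under a transposition of `a` and an index which does not occur
in `p`. -/
theorem exists_common {a b : Ix} (hab : a ≠ b) (h : a.1 = b.1) (p : Cnd)
    (hb : ∀ l x, (b, l, x) ∉ p.1) : ∃ q, q ≤ p ∧ q ≤ act (swp a b h) p := by
  classical
  have hcase : ∀ c l x, (c, l, x) ∈ (act (swp a b h) p).1 →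
      (c = b ∧ (a, l, x) ∈ p.1) ∨ (c ≠ a ∧ c ≠ b ∧ (c, l, x) ∈ p.1) := by
    intro c l x hc
    have h1 : ((Equiv.swap a b).symm c, l, x) ∈ p.1 := mem_actF.1 hc
    rw [Equiv.symm_swap] at h1
    by_cases hca : c = a
    · rw [hca, Equiv.swap_apply_left] at h1
      exact absurd h1 (hb _ _)
    · by_cases hcb : c = b
      · rw [hcb, Equiv.swap_apply_right] at h1
        exact Or.inl ⟨hcb, h1⟩
      · rw [Equiv.swap_apply_of_ne_of_ne hca hcb] at h1
        exact Or.inr ⟨hca, hcb, h1⟩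
  refine ⟨⟨p.1 ∪ (act (swp a b h) p).1, fun c l hcl => ?_⟩, Finset.subset_union_left,
    Finset.subset_union_right⟩
  obtain ⟨h1, h2⟩ := hcl
  rw [Finset.mem_union] at h1 h2
  have h3 : ∀ x, (c, l, x) ∈ p.1 ∨ (c, l, x) ∈ (act (swp a b h) p).1 →
      (c = b ∧ (a, l, x) ∈ p.1) ∨ (c ≠ b ∧ (c, l, x) ∈ p.1) := by
    intro x hx
    rcases hx with hx | hx
    · refine Or.inr ⟨?_, hx⟩
      rintro rfl
      exact hb _ _ hx
    · rcases hcase c l x hx with h4 | h4
      · exact Or.inl h4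
      · exact Or.inr ⟨h4.2.1, h4.2.2⟩
  rcases h3 _ h1 with h4 | h4 <;> rcases h3 _ h2 with h5 | h5
  · exact p.2 a l ⟨h4.2, h5.2⟩
  · exact h5.1 h4.1
  · exact h4.1 h5.1
  · exact p.2 c l ⟨h4.2, h5.2⟩

theorem exists_new (N : ℕ) (s : Finset Ix) (p : Cnd) : ∃ k, (N, k) ∉ s ∧
    ∀ l x, ((N, k), l, x) ∉ p.1 := by
  classical
  obtain ⟨k, hk⟩ := Infinite.exists_notMem_finset
    (s.image (fun a => a.2) ∪ p.1.image (fun t => t.1.2))
  rw [Finset.mem_union, not_or] at hk
  exact ⟨k, fun h => hk.1 (Finset.mem_image_of_mem _ h),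
    fun l x h => hk.2 (Finset.mem_image.2 ⟨_, h, rfl⟩)⟩

theorem symG (f : GG.M) : ∃ N, ∀ (χ : Fm 3) (s t : Finset Ix) (a : Ix) (n : ℕ), N ≤ a.1 → a ∉ s →
    s.Nonempty → Disjoint s t →
    (∀ u, s ⊆ u → Disjoint u t → Sat GG.E χ ![f, vl (sN u), vl (nat Cnd n)]) →
      Sat GG.E χ ![f, vl (sN (insert a s)), vl (nat Cnd n)] := by
  classical
  obtain ⟨F, hF, rfl⟩ := GG.exists_val f
  obtain ⟨N, hN⟩ := HS.symm hF.mem
  refine ⟨N, fun χ s t a n ha has hs hst h => ?_⟩
  by_contra hcon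
  -- the two forced statements
  let φ : Fm 3 := ∀' (fMem nw (up 1) ⟹ ren ![up 0, nw, up 2] χ)
  have h1 : Sat GG.E φ ![GG.val F, vl (UN s t), vl (nat Cnd n)] := by
    rw [sat_all]
    intro x
    rw [sat_imp, sat_mem, sat_ren]
    simp only [sn_nw, sn_up]
    intro hx
    change GG.E x (vl (UN s t)) at hx
    have hUN := UN_tc0 s t
    unfold UN at hx hUN
    obtain ⟨u, rfl⟩ := (mem_vl_ck hUN).1 hx
    have h2 := h u.1 u.2.2.1 u.2.2.2
    convert h2 using 1
    funext i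
    fin_cases i <;> rfl
  have hin1 : ∀ i, GG.In ((![F, UN s t, nat Cnd n] : Fin 3 → Name Cnd) i) := by
    intro i
    fin_cases i
    · exact hF
    · exact in_tc0 (UN_tc0 s t)
    · exact in_tc0 (nat_tc0 n)
  have hin2 : ∀ i, GG.In ((![F, sN (insert a s), nat Cnd n] : Fin 3 → Name Cnd) i) := by
    intro i
    fin_cases i
    · exact hF
    · exact in_tc0 (sN_tc0 _)
    · exact in_tc0 (nat_tc0 n)
  obtain ⟨k, hk⟩ := (GenStd.sat_val φ hin1).1 (by
    convert h1 using 1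
    funext i
    fin_cases i <;> rfl)
  obtain ⟨l, hl⟩ := (GenStd.sat_val (∼χ) hin2).1 (by
    rw [sat_not]
    intro h2
    apply hcon
    convert h2 using 1
    funext i
    fin_cases i <;> rfl)
  set p := GG.p (max k l) with hp
  have hk' := hk.mono (GG.mono _ _ (le_max_left k l))
  have hl' := hl.mono (GG.mono _ _ (le_max_right k l))
  rw [← hp] at hk' hl'
  -- a new index
  obtain ⟨m, hm, hm'⟩ := exists_new a.1 (insert a (s ∪ t)) p
  set b : Ix := (a.1, m) with hb
  rw [Finset.mem_insert, Finset.mem_union, not_or, not_or] at hm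
  have hab : a ≠ b := fun h => hm.1 h.symm
  have hfst : a.1 = b.1 := rfl
  set g := swp a b hfst with hg
  have hgN : g ∈ HH N := by
    intro x hx
    change Equiv.swap a b x = x
    apply Equiv.swap_apply_of_ne_of_ne
    · rintro rfl
      omega
    · rintro rfl
      rw [← hfst] at hx
      omega
  have hgs : gs g (insert a s) = insert b s := by
    ext c
    constructor
    · intro hc
      obtain ⟨d, hd, rfl⟩ := exists_of_mem_gs hc
      change Equiv.swap a b d ∈ _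
      by_cases hda : d = a
      · rw [hda, Equiv.swap_apply_left]
        exact Finset.mem_insert_self _ _
      · have hds : d ∈ s := (Finset.mem_insert.1 hd).resolve_left hda
        rw [Equiv.swap_apply_of_ne_of_ne hda (fun h => hm.2.1 (by rw [← h]; exact hds))]
        exact Finset.mem_insert_of_mem hds
    · intro hc
      rcases Finset.mem_insert.1 hc with rfl | hc
      · have : g.1 a = b := Equiv.swap_apply_left a b
        rw [← this]
        exact mem_gs.2 (Finset.mem_insert_self _ _)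
      · have : g.1 c = c := by
          change Equiv.swap a b c = c
          exact Equiv.swap_apply_of_ne_of_ne (fun h => has (by rw [← h]; exact hc))
            (fun h => hm.2.1 (by rw [← h]; exact hc))
        rw [← this]
        exact mem_gs.2 (Finset.mem_insert_of_mem hc)
  -- the image of the second statement
  have h3 : Forces SN (∼χ) ![F, sN (insert b s), nat Cnd n] (act g p) := by
    have h4 := (forces_am (act := act) (H := HH) conj_HH g (∼χ)
      (xs := ![F, sN (insert a s), nat Cnd n]) (p := p)).2 hl'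
    refine (Forces.congr (∼χ) fun i => ?_).1 h4
    fin_cases i
    · exact hN g hgN _
    · change ForcesEq (am act g (sN (insert a s))) (sN (insert b s)) _
      rw [← hgs]
      exact am_sN g _ _
    · exact fixes_nat g n _
  obtain ⟨q, hqp, hqg⟩ := exists_common hab hfst p hm'
  have h5 : Forces SN χ ![F, sN (insert b s), nat Cnd n] q := by
    have h6 := forces_imp.1 (forces_all.1 hk' (sN (insert b s)) (hs_sN _)) q hqp
    rw [forces_mem, forces_ren] at h6
    simp only [sn_nw, sn_up] at h6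
    have h7 := h6 (mem_ck_self (fun u : {u : Finset Ix // u.Nonempty ∧ s ⊆ u ∧ Disjoint u t} =>
      sN u.1) ⟨insert b s, Finset.insert_nonempty b s, Finset.subset_insert b s, by
        rw [Finset.disjoint_insert_left]; exact ⟨hm.2.2, hst⟩⟩ q)
    convert h7 using 1
    funext i
    fin_cases i <;> rfl
  exact (h3.mono hqg) q le_rfl h5

/-- The symmetric Cohen model. -/
noncomputable def theC : CModel where
  M := GG.M
  E := GG.E
  zf := zfG
  w := vl (om Cnd)
  nv n := vl (nat Cnd n)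
  nv_inj := vl_nat_inj
  w_mem t := by
    have h : om Cnd ∈ Tc0 := mem_tc0 (by simp [Top0])
    exact mem_vl_ck (x := nat Cnd) h
  nv_mem n t := by
    have h := nat_tc0 n
    rw [nat_def] at h ⊢
    rw [mem_vl_ck h]
    constructor
    · rintro ⟨i, hi⟩
      exact ⟨i.1, i.2, hi⟩
    · rintro ⟨i, hi, h⟩
      exact ⟨⟨i, hi⟩, h⟩
  lq := vl (rN (fun i j => ratE i < ratE j))
  lq_app := rel_tc0 (mem_tc0 (by simp [Top0]))
  nq := vl (rN (fun i j => ratE j = -ratE i))
  nq_app := rel_tc0 (mem_tc0 (by simp [Top0]))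
  iq := vl (rN (fun i j => ratE j = 1 / ((i : ℚ) + 1)))
  iq_app := rel_tc0 (mem_tc0 (by simp [Top0]))
  d a := vl (xN a)
  d_inj := vl_xN_inj
  pt s := vl (sN s)
  pt_mem s t := by
    have h := sN_tc0 s
    unfold sN at h ⊢
    rw [mem_vl_ck h]
    constructor
    · rintro ⟨a, ha⟩
      exact ⟨a.1, a.2, ha⟩
    · rintro ⟨a, ha, h⟩
      exact ⟨⟨a, ha⟩, h⟩
  X := vl XN
  X_mem t := by
    have h : XN ∈ Tc0 := mem_tc0 (by simp [Top0])
    unfold XN at h ⊢
    rw [mem_vl_ck h]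
    constructor
    · rintro ⟨s, hs⟩
      exact ⟨s.1, s.2, hs⟩
    · rintro ⟨s, hs, h⟩
      exact ⟨⟨s, hs⟩, h⟩
  U s t := vl (UN s t)
  U_mem s t x := by
    have h := UN_tc0 s t
    unfold UN at h ⊢
    rw [mem_vl_ck h]
    constructor
    · rintro ⟨u, hu⟩
      exact ⟨u.1, u.2.1, u.2.2.1, u.2.2.2, hu⟩
    · rintro ⟨u, h1, h2, h3, h4⟩
      exact ⟨⟨u, h1, h2, h3⟩, h4⟩
  B := vl BN
  B_mem x := by
    have h : BN ∈ Tc0 := mem_tc0 (by simp [Top0])
    unfold BN at h ⊢
    rw [mem_vl_ck h]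
    constructor
    · rintro ⟨st, hst⟩
      exact ⟨st.1, st.2, hst⟩
    · rintro ⟨s, t, h⟩
      exact ⟨(s, t), h⟩
  NB := vl NBN
  NB_mem x := by
    have h : NBN ∈ Tc0 := mem_tc0 (by simp [Top0])
    unfold NBN at h ⊢
    exact mem_vl_ck h
  Dn N := vl (DN N)
  Dn_mem N t := by
    have h := DN_tc0 N
    unfold DN at h ⊢
    rw [mem_vl_ck h]
    constructor
    · rintro ⟨a, ha⟩
      exact ⟨a.1, a.2, ha⟩
    · rintro ⟨a, ha, h⟩
      exact ⟨⟨a, ha⟩, h⟩
  e N := vl (eN N)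
  e_app N u v := by
    have h : eN N ∈ Tc0 := mem_tc0 (by simp [Top0])
    unfold eN at h ⊢
    exact app_vl h
  DS := vl DSN
  DS_app u v := by
    have h : DSN ∈ Tc0 := mem_tc0 (by simp [Top0])
    unfold DSN at h ⊢
    exact app_vl h
  sym := symG

/-- A model of ZF with a Tychonoff space which is not realcompact, but on which all z-ultrafilters
with the countable intersection property are fixed. -/
theorem exists_space : ∃ (M : Type) (E : M → M → Prop), IsZF E ∧ ∃ R L o X T : M,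
    RealLine E R L ∧ E o R ∧ Tychonoff E X T R L ∧
    (∀ F, ZUltrafilter E X T R L o F → CIP E F → Fixed E F) ∧
    ¬ RealCompact E X T R L :=
  ⟨theC.M, theC.E, theC.zf, theC.R, theC.L, theC.qc 0, theC.X, theC.T, theC.realLine,
    theC.qc_mem 0, CModel.tychonoff, fun _ hF hcip => CModel.fixed hF hcip,
    CModel.not_realCompact⟩

end Pool.Agent.helper57.RC
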